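import Pool.Agent.Work.MP_b5407d_us.LGNG

/-!
THEOREM US from the blocks.
-/

set_option autoImplicit false

open MeasureTheory Set Filter Topology
open scoped ENNReal Pointwise

namespace Pool.US

open Pool.Agent.Work.LPBM (E supp Wulff CBody mp)

/-- admissible pairs of factors: dimension `≤ 2` and centered, or dimension `3` and symmetric, or equal -/
def FacG {d : ℕ} (A B : Set (E d)) : Prop := CBody A ∧ CBody B ∧ 1 ≤ d ∧
  (d ≤ 2 ∨ (d = 3 ∧ (∀ x ∈ A, -x ∈ A) ∧ (∀ x ∈ B, -x ∈ B)) ∨ B = A)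

theorem log_fac (hFC1 : Stmt_FC1) (hFC2 : Stmt_FC2) (hFC3 : Stmt_FC3) :
    ∀ (e : ℕ) (X Y : Set (E e)), FacG X Y → LogPair X Y := by
  intro e X Y ⟨hX, hY, h1, h⟩
  rcases h with h2 | ⟨h3, hs1, hs2⟩ | h4
  · interval_cases e
    · exact hFC1 X Y hX hY
    · exact hFC2 X Y hX hY
  · subst h3
    exact hFC3 X Y hX hY hs1 hs2
  · subst h4
    exact log_self h1 hX

theorem core (hFC1 : Stmt_FC1) (hFC2 : Stmt_FC2) (hFC3 : Stmt_FC3) (hDBD : Stmt_DBD)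
    (hVLW : Stmt_VLW) (hVUP : Stmt_VUP) (hUVC : Stmt_UVC) (hPLX : Stmt_PLX) (hINC : Stmt_INC)
    (hLIN : Stmt_LIN) (hLFN : Stmt_LFN)
    (p : ℝ) (hp0 : 0 < p) (hp1 : p < 1) (n : ℕ) (hn : 1 ≤ n) (m : ℕ) (d : Fin m → ℕ)
    (Φ : (∀ i, E (d i)) ≃ₗ[ℝ] E n) (A B : ∀ i, Set (E (d i))) (hF : ∀ i, FacG (A i) (B i))
    (U V : Set (Fin m → ℝ)) (hU : Prof U) (hV : Prof V)
    (hK : CBody (Φ '' USum U A)) (hC : CBody (Φ '' USum V B)) :
    Q1Pair p (Φ '' USum U A) (Φ '' USum V B) :=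
  hLFN n hn _ _ hK hC (p_LGNG hDBD hVLW hVUP hUVC hPLX hINC hLIN n m d Φ A B
    (fun i => (hF i).2.2.1) (fun i => (hF i).1) (fun i => (hF i).2.1)
    (fun i => log_fac hFC1 hFC2 hFC3 _ _ _ (hF i)) U V hU hV hn hK hC) p hp0 hp1

end Pool.US
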