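import Pool.Agent.Work.MP_b5407d_us.Interface
import Pool.Agent.Work.MP_b5407d_lp_helper68.EQL

/-!
# DBD: the geometric mean of two centered bodies is a body
-/

set_option autoImplicit false

open MeasureTheory Set Filter Topology
open scoped ENNReal Pointwise

namespace Pool.US

open Pool.Agent.Work.LPBM (E supp Wulff CBody mp Stmt_CEN)

theorem DBD.bdd {n : ℕ} (hn : 1 ≤ n) (M : E n → ℝ) (hM : Continuous M) :
    Bornology.IsBounded (Wulff M) := by
  obtain ⟨u0, hu0, hmax⟩ := (isCompact_sphere (0 : E n) 1).exists_isMaxOn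
    (Pool.Agent.Work.LPBM.helper68.sphere_nonempty hn) hM.continuousOn
  refine (Metric.isBounded_closedBall (x := (0 : E n)) (r := max (M u0) 0)).subset ?_
  intro x hx
  rw [mem_closedBall_zero_iff]
  by_cases h0 : x = 0
  · subst h0
    simp
  · have hn0 : 0 < ‖x‖ := norm_pos_iff.2 h0
    have hu : (‖x‖⁻¹ • x) ∈ Metric.sphere (0 : E n) 1 := by
      rw [mem_sphere_zero_iff_norm, norm_smul, norm_inv, norm_norm, inv_mul_cancel₀ hn0.ne']
    have h1 := hx _ hu
    rw [real_inner_smul_right, real_inner_self_eq_norm_sq] at h1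
    have h2 : ‖x‖⁻¹ * ‖x‖ ^ 2 = ‖x‖ := by
      field_simp
    rw [h2] at h1
    have h3 : M (‖x‖⁻¹ • x) ≤ M u0 := hmax hu
    exact (h1.trans h3).trans (le_max_left _ _)

theorem p_DBD (h : Stmt_CEN) : Stmt_DBD := by
  intro d hd A B hA hB t ht0 ht1
  obtain ⟨-, hA2, hA3, -⟩ := h d A hd hA
  obtain ⟨-, hB2, hB3, -⟩ := h d B hd hB
  have hM : Continuous fun u : E d => supp A u ^ (1 - t) * supp B u ^ t :=
    (hA3.rpow_const fun _ => Or.inr (by linarith)).mul (hB3.rpow_const fun _ => Or.inr ht0.le)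
  refine ⟨Pool.Agent.Work.LPBM.helper68.wulff_convex _,
    Metric.isCompact_of_isClosed_isBounded (Pool.Agent.Work.LPBM.helper68.wulff_closed _)
      (DBD.bdd hd _ hM), Pool.Agent.Work.LPBM.helper68.wulff_zero hd _ hM fun u hu => ?_⟩
  have hu0 : u ≠ 0 := by
    rintro rfl
    simp at hu
  exact mul_pos (Real.rpow_pos_of_pos (hA2 u hu0) _) (Real.rpow_pos_of_pos (hB2 u hu0) _)

end Pool.US
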