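import Pool.Agent.Work.MP_b5407d_us.Interface

/-!
# Block DFN: every functional on a sum of Euclidean spaces splits
-/

set_option autoImplicit false

open MeasureTheory Set Filter Topology
open scoped ENNReal Pointwise

namespace Pool.US

open Pool.Agent.Work.LPBM (E)

/-- `DFN` -/
theorem p_DFN : Stmt_DFN := by
  classical
  intro n m d Φ u
  -- the functional on the `i`-th summand
  let ℓ : ∀ i, E (d i) →ₗ[ℝ] ℝ := fun i =>
    ((innerₗ (E n)) u).comp (Φ.toLinearMap.comp (LinearMap.single ℝ (fun i => E (d i)) i))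
  refine ⟨fun i => (InnerProductSpace.toDual ℝ (E (d i))).symm (LinearMap.toContinuousLinearMap (ℓ i)),
    fun x => ?_⟩
  have h1 : ∀ i, inner ℝ (x i) ((InnerProductSpace.toDual ℝ (E (d i))).symm
      (LinearMap.toContinuousLinearMap (ℓ i))) = ℓ i (x i) := by
    intro i
    rw [real_inner_comm, InnerProductSpace.toDual_symm_apply]
    rfl
  rw [Finset.sum_congr rfl fun i _ => h1 i]
  have h2 : x = ∑ i, Pi.single i (x i) := by
    funext j
    simp [Finset.sum_apply]
  conv_lhs => rw [h2]
  rw [map_sum, sum_inner]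
  refine Finset.sum_congr rfl fun i _ => ?_
  rw [real_inner_comm]
  rfl

end Pool.US
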