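import Pool.Agent.Work.MP_b5407d_us.Interface
import Pool.Agent.Work.MP_b5407d_lp_helper23.CEN

/-!
# Block DIN (typed by helper66): the inequality of `DD` for all vectors
-/

set_option autoImplicit false

open MeasureTheory Set Filter Topology
open scoped ENNReal Pointwise

namespace Pool.US

open Pool.Agent.Work.LPBM (E supp Wulff CBody mp)

theorem DIN.supp_smul {n : ℕ} {K : Set (E n)} (hK : IsCompact K) (hne : K.Nonempty) {r : ℝ}
    (hr : 0 < r) (u : E n) : supp K (r • u) = r * supp K u := by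
  apply le_antisymm
  · refine Pool.Agent.Work.LPBM.helper23.supp_le hne _ _ fun x hx => ?_
    rw [inner_smul_right]
    exact mul_le_mul_of_nonneg_left (Pool.Agent.Work.LPBM.helper23.le_supp hK u x hx) hr.le
  · rw [← le_div_iff₀' hr]
    refine Pool.Agent.Work.LPBM.helper23.supp_le hne _ _ fun x hx => ?_
    rw [le_div_iff₀' hr, ← inner_smul_right]
    exact Pool.Agent.Work.LPBM.helper23.le_supp hK (r • u) x hx

theorem p_DIN : Stmt_DIN := by
  intro d hd A B hA hB t ht ht1 y hy v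
  obtain ⟨hA1, hAc, hAi, hA4⟩ := hA
  obtain ⟨hB1, hBc, hBi, hB4⟩ := hB
  have hAn : A.Nonempty := hAi.mono interior_subset
  have hBn : B.Nonempty := hBi.mono interior_subset
  by_cases hv : v = 0
  · subst hv
    rw [inner_zero_right]
    obtain ⟨x, hx⟩ := hAn
    obtain ⟨z, hz⟩ := hBn
    have h1 := Pool.Agent.Work.LPBM.helper23.le_supp hAc 0 x hx
    have h2 := Pool.Agent.Work.LPBM.helper23.le_supp hBc 0 z hz
    rw [inner_zero_right] at h1 h2
    exact mul_nonneg (Real.rpow_nonneg h1 _) (Real.rpow_nonneg h2 _)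
  · have hn : 0 < ‖v‖ := norm_pos_iff.2 hv
    obtain ⟨u, hu⟩ : ∃ u : E d, u = ‖v‖⁻¹ • v := ⟨_, rfl⟩
    have hvu : v = ‖v‖ • u := by
      rw [hu, smul_smul, mul_inv_cancel₀ hn.ne', one_smul]
    have hus : u ∈ Metric.sphere (0 : E d) 1 := by
      rw [mem_sphere_zero_iff_norm, hu, norm_smul, norm_inv, norm_norm, inv_mul_cancel₀ hn.ne']
    have h := hy u hus
    have hA0 : 0 ≤ supp A u := by
      have h0 := Pool.Agent.Work.LPBM.helper23.le_supp hAc u 0 (interior_subset
        (Pool.Agent.Work.LPBM.helper23.zero_mem_interior hA1 hAc hAi hA4))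
      rwa [inner_zero_left] at h0
    have hB0 : 0 ≤ supp B u := by
      have h0 := Pool.Agent.Work.LPBM.helper23.le_supp hBc u 0 (interior_subset
        (Pool.Agent.Work.LPBM.helper23.zero_mem_interior hB1 hBc hBi hB4))
      rwa [inner_zero_left] at h0
    have hA2 : supp A v = ‖v‖ * supp A u := by
      conv_lhs => rw [hvu]
      exact DIN.supp_smul hAc hAn hn u
    have hB2 : supp B v = ‖v‖ * supp B u := by
      conv_lhs => rw [hvu]
      exact DIN.supp_smul hBc hBn hn u
    have hi : inner ℝ y v = ‖v‖ * inner ℝ y u := by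
      conv_lhs => rw [hvu]
      rw [inner_smul_right]
    rw [hA2, hB2, hi, Real.mul_rpow hn.le hA0, Real.mul_rpow hn.le hB0]
    have h5 : ‖v‖ ^ (1 - t) * ‖v‖ ^ t = ‖v‖ := by
      rw [← Real.rpow_add hn]
      norm_num
    calc ‖v‖ * inner ℝ y u ≤ ‖v‖ * (supp A u ^ (1 - t) * supp B u ^ t) :=
          mul_le_mul_of_nonneg_left h hn.le
      _ = (‖v‖ ^ (1 - t) * ‖v‖ ^ t) * (supp A u ^ (1 - t) * supp B u ^ t) := by rw [h5]
      _ = ‖v‖ ^ (1 - t) * supp A u ^ (1 - t) * (‖v‖ ^ t * supp B u ^ t) := by ring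

end Pool.US
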