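import Pool.Agent.Work.MP_b5407d_us.Interface
import Pool.Agent.Work.MP_b5407d_lp_helper23.CEN
import Pool.Agent.Work.MP_b5407d_lp_helper68.FIN

/-! # Block FC1: the logarithmic inequality in dimension one -/

set_option autoImplicit false

open MeasureTheory Set Filter Topology
open scoped ENNReal Pointwise

namespace Pool.US

open Pool.Agent.Work.LPBM (E supp Wulff CBody mp)
open Pool.Agent.Work.LPBM.helper68 (smul_vol wulff_smul wulff_congr)

namespace FC1

lemma sph {u e : E 1} (hu : u ∈ Metric.sphere (0 : E 1) 1) (he : e ∈ Metric.sphere (0 : E 1) 1) :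
    u = e ∨ u = -e := by
  have h : ∀ v : E 1, v ∈ Metric.sphere (0 : E 1) 1 → v 0 = 1 ∨ v 0 = -1 := by
    intro v hv
    rw [mem_sphere_zero_iff_norm, EuclideanSpace.norm_eq] at hv
    have h1 : |v 0| = 1 := by
      have h2 : ∑ i : Fin 1, ‖v i‖ ^ 2 = |v 0| ^ 2 := by
        simp
      rw [h2, Real.sqrt_sq (abs_nonneg _)] at hv
      exact hv
    exact eq_or_eq_neg_of_abs_eq h1
  have hext : ∀ v w : E 1, v 0 = w 0 → v = w := by
    intro v w hvw
    ext i
    have hi : i = 0 := Subsingleton.elim _ _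
    rw [hi]
    exact hvw
  rcases h u hu with h1 | h1 <;> rcases h e he with h2 | h2
  · exact Or.inl (hext _ _ (by rw [h1, h2]))
  · exact Or.inr (hext _ _ (by simp [h1, h2]))
  · exact Or.inr (hext _ _ (by simp [h1, h2]))
  · exact Or.inl (hext _ _ (by rw [h1, h2]))

/-- A centered body of dimension one is an interval `[-a, a]`. -/
lemma body {A : Set (E 1)} (hA : CBody A) : ∃ a : ℝ, 0 < a ∧
    (∀ u ∈ Metric.sphere (0 : E 1) 1, supp A u = a * 1) ∧ A = Wulff fun _ => a * 1 := by
  obtain ⟨h0, hpos, hcont, hneg, hle, hmem⟩ :=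
    Pool.Agent.Work.LPBM.helper23.stmt_CEN 1 A le_rfl hA
  set e : E 1 := EuclideanSpace.single 0 (1 : ℝ) with he
  have hes : e ∈ Metric.sphere (0 : E 1) 1 := by
    rw [mem_sphere_zero_iff_norm, he]
    simp
  have he0 : e ≠ 0 := by
    intro h
    rw [h] at hes
    simp at hes
  have hsym : supp A (-e) = supp A e := by
    apply le_antisymm
    · have := hneg e
      simpa using this
    · have := hneg (-e)
      simpa using this
  have hs : ∀ u ∈ Metric.sphere (0 : E 1) 1, supp A u = supp A e * 1 := by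
    intro u hu
    rw [mul_one]
    rcases sph hu hes with h | h
    · rw [h]
    · rw [h, hsym]
  refine ⟨supp A e, hpos e he0, hs, ?_⟩
  ext x
  constructor
  · intro hx u hu
    rw [← hs u hu]
    exact hle u x hx
  · intro hx
    apply hmem
    intro u hu
    rw [hs u hu]
    exact hx u hu

end FC1

open FC1 in
theorem p_FC1 : Stmt_FC1 := by
  intro A B hA hB t ht0 ht1
  obtain ⟨a, ha, hsa, hAw⟩ := body hA
  obtain ⟨b, hb, hsb, hBw⟩ := body hB
  set W : Set (E 1) := Wulff fun _ => (1 : ℝ) with hW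
  have h1 : A = a • W := by
    rw [hAw]
    exact wulff_smul (fun _ => (1 : ℝ)) ha
  have h2 : B = b • W := by
    rw [hBw]
    exact wulff_smul (fun _ => (1 : ℝ)) hb
  have hc : 0 < a ^ (1 - t) * b ^ t :=
    mul_pos (Real.rpow_pos_of_pos ha _) (Real.rpow_pos_of_pos hb _)
  have h3 : (Wulff fun u => supp A u ^ (1 - t) * supp B u ^ t) = (a ^ (1 - t) * b ^ t) • W := by
    have h4 := wulff_smul (n := 1) (fun _ => (1 : ℝ)) hc
    rw [← h4]
    apply wulff_congr
    intro u hu
    rw [hsa u hu, hsb u hu, mul_one, mul_one, mul_one]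
  have hv : 0 ≤ (volume W).toReal := ENNReal.toReal_nonneg
  rw [h3, smul_vol _ hc, h1, h2, smul_vol _ ha, smul_vol _ hb, pow_one, pow_one, pow_one,
    Real.mul_rpow ha.le hv, Real.mul_rpow hb.le hv]
  have h5 : (volume W).toReal ^ (1 - t) * (volume W).toReal ^ t = (volume W).toReal := by
    rw [← Real.rpow_add_of_nonneg hv (by linarith) ht0.le, sub_add_cancel, Real.rpow_one]
  have h6 : a ^ (1 - t) * (volume W).toReal ^ (1 - t) * (b ^ t * (volume W).toReal ^ t) =
      a ^ (1 - t) * b ^ t * ((volume W).toReal ^ (1 - t) * (volume W).toReal ^ t) := by ring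
  rw [h6, h5]

end Pool.US
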