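import Pool.Agent.Work.MP_b5407d_us.Interface
import Pool.Agent.Work.MP_b5407d_nc_helper97.PosFinal

/-! # Block FC2: the logarithmic inequality in dimension two -/

set_option autoImplicit false

open MeasureTheory Set Filter Topology
open scoped ENNReal Pointwise

namespace Pool.US

open Pool.Agent.Work.LPBM (E supp Wulff CBody mp)

theorem p_FC2 : Stmt_FC2 := by
  intro A B hA hB t ht0 ht1
  exact Pool.LBM.st_LE Pool.LBM.pos A B hA.1 hA.2.1 hA.2.2.1 hB.1 hB.2.1 hB.2.2.1
    hA.2.2.2 hB.2.2.2 t ⟨ht0.le, ht1.le⟩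

end Pool.US
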