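import Pool.Agent.Work.MP_b5407d_us.Interface
import Pool.Agent.Work.MP_b5407d_g1.Final
import Pool.Agent.Work.MP_b5407d_nb.NBDone

/-!
# Block FC3: the logarithmic inequality for symmetric bodies of dimension three
-/

set_option autoImplicit false

open MeasureTheory Set Filter Topology
open scoped ENNReal Pointwise

namespace Pool.US

open Pool.Agent.Work.LPBM (E supp Wulff CBody mp)

/-- `FC3` -/
theorem p_FC3 : Stmt_FC3 := by
  intro A B hA hB hsA hsB t h0 h1
  exact Pool.G1.Final.log Pool.G1.NB.PL_done A B hA.1 hA.2.1 hA.2.2.1 hsA hB.1 hB.2.1 hB.2.2.1 hsB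
    t h0.le h1.le

end Pool.US
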