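import Pool.Agent.Work.MP_b5407d_us.Interface

/-! Block `GAU`: gauges of bodies. -/

set_option autoImplicit false

open MeasureTheory Set Filter Topology
open scoped ENNReal Pointwise

namespace Pool.US

open Pool.Agent.Work.LPBM (E supp Wulff CBody mp)

theorem p_GAU : Stmt_GAU := by
  intro d A hA
  obtain ⟨hconv, hcpt, h0⟩ := hA
  have hnhds : A ∈ 𝓝 (0 : E d) := mem_interior_iff_mem_nhds.mp h0
  have habs : Absorbent ℝ A := absorbent_nhds_zero hnhds
  have hvb : Bornology.IsVonNBounded ℝ A := (NormedSpace.isVonNBounded_iff ℝ).mpr hcpt.isBounded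
  have hzero : ∀ x : E d, gauge A x = 0 ↔ x = 0 := by
    intro x
    constructor
    · intro h
      by_contra hx
      have := (gauge_pos habs hvb).mpr hx
      rw [h] at this
      exact lt_irrefl _ this
    · rintro rfl
      exact gauge_zero
  refine ⟨?_, hzero, continuous_gauge hconv hnhds⟩
  intro s hs x
  rcases hs.eq_or_lt with h | h
  · rw [← h]
    constructor
    · rintro ⟨y, _, rfl⟩
      rw [zero_smul, gauge_zero]
    · intro hx
      have h1 : gauge A x = 0 := le_antisymm hx (gauge_nonneg x)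
      refine ⟨0, interior_subset h0, ?_⟩
      rw [(hzero x).mp h1, smul_zero]
  · have hsi : 0 < s⁻¹ := inv_pos.mpr h
    have h1 : (∃ y ∈ A, x = s • y) ↔ s⁻¹ • x ∈ A := by
      constructor
      · rintro ⟨y, hy, rfl⟩
        rw [inv_smul_smul₀ h.ne']
        exact hy
      · intro hx
        exact ⟨s⁻¹ • x, hx, by rw [smul_inv_smul₀ h.ne']⟩
    have h2 : gauge A (s⁻¹ • x) = s⁻¹ * gauge A x := by
      rw [gauge_smul_of_nonneg hsi.le, smul_eq_mul]
    have h3 := gauge_le_one_iff_mem_closure (x := s⁻¹ • x) hconv hnhds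
    rw [hcpt.isClosed.closure_eq, h2, inv_mul_le_iff₀ h, mul_one] at h3
    rw [h1, h3]

end Pool.US
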