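import Pool.Agent.Work.MP_b5407d_us.Interface

/-!
# Block HLD: Hölder's inequality for two families
-/

set_option autoImplicit false

open MeasureTheory Set Filter Topology
open scoped ENNReal Pointwise

namespace Pool.US

/-- `HLD` -/
theorem p_HLD : Stmt_HLD := by
  intro m a b ha hb t h0 h1
  have h1t : 0 < 1 - t := by linarith
  have hpq : Real.HolderConjugate (1 / (1 - t)) (1 / t) := by
    rw [Real.holderConjugate_iff]
    constructor
    · rw [lt_div_iff₀ h1t]
      linarith
    · rw [one_div, one_div, inv_inv, inv_inv]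
      ring
  have h := Real.inner_le_Lp_mul_Lq_of_nonneg (s := Finset.univ)
    (f := fun i => a i ^ (1 - t)) (g := fun i => b i ^ t) hpq
    (fun i _ => Real.rpow_nonneg (ha i) _) (fun i _ => Real.rpow_nonneg (hb i) _)
  have e1 : ∀ i, (a i ^ (1 - t)) ^ (1 / (1 - t)) = a i := by
    intro i
    rw [← Real.rpow_mul (ha i), mul_one_div_cancel h1t.ne', Real.rpow_one]
  have e2 : ∀ i, (b i ^ t) ^ (1 / t) = b i := by
    intro i
    rw [← Real.rpow_mul (hb i), mul_one_div_cancel h0.ne', Real.rpow_one]
  rw [Finset.sum_congr rfl fun i _ => e1 i, Finset.sum_congr rfl fun i _ => e2 i, one_div_one_div,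
    one_div_one_div] at h
  exact h

end Pool.US
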