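import Pool.Agent.Work.MP_b5407d_us.Interface
import Pool.Agent.Work.MP_b5407d_lp_helper23.CEN
import Pool.Agent.Work.MP_b5407d_lp_helper68.EQL

set_option autoImplicit false

open MeasureTheory Set Filter Topology
open scoped ENNReal Pointwise

namespace Pool.US

open Pool.Agent.Work.LPBM (E supp Wulff CBody mp)

namespace LGP

theorem geo_le_mp {a b t p : ℝ} (ha : 0 < a) (hb : 0 < b) (ht0 : 0 < t) (ht1 : t < 1)
    (hp : 0 < p) : a ^ (1 - t) * b ^ t ≤ mp p t a b := by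
  have hap := Real.rpow_pos_of_pos ha p
  have hbp := Real.rpow_pos_of_pos hb p
  have h1 := Real.geom_mean_le_arith_mean2_weighted (w₁ := 1 - t) (w₂ := t) (p₁ := a ^ p)
    (p₂ := b ^ p) (by linarith) ht0.le hap.le hbp.le (by ring)
  unfold mp
  have h2 : a ^ (1 - t) * b ^ t = ((a ^ p) ^ (1 - t) * (b ^ p) ^ t) ^ (1 / p) := by
    rw [Real.mul_rpow (Real.rpow_nonneg hap.le _) (Real.rpow_nonneg hbp.le _),
      ← Real.rpow_mul ha.le, ← Real.rpow_mul hb.le, ← Real.rpow_mul ha.le, ← Real.rpow_mul hb.le]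
    congr 2 <;> field_simp
  rw [h2]
  exact Real.rpow_le_rpow (by positivity) h1 (by positivity)

end LGP

theorem p_LGP : Stmt_LGP := by
  intro n hn K C hK hC h p hp t ht0 ht1
  obtain ⟨-, hKpos, hKc, -, -, -⟩ := Pool.Agent.Work.LPBM.helper23.stmt_CEN n K hn hK
  obtain ⟨-, hCpos, hCc, -, -, -⟩ := Pool.Agent.Work.LPBM.helper23.stmt_CEN n C hn hC
  refine (h t ht0 ht1).trans ?_
  refine ENNReal.toReal_mono
    (Pool.Agent.Work.LPBM.helper68.wulff_fin hn _
      (Pool.Agent.Work.LPBM.helper68.mp_cont hp _ _ hKc hCc)) (measure_mono ?_)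
  intro x hx u hu
  have hu0 : u ≠ 0 := by
    intro h
    rw [h] at hu
    simp at hu
  exact (hx u hu).trans (LGP.geo_le_mp (hKpos u hu0) (hCpos u hu0) ht0 ht1 hp)

end Pool.US
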