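import Pool.Agent.Work.MP_b5407d_us.Interface

set_option autoImplicit false

open MeasureTheory Set Filter Topology
open scoped ENNReal Pointwise

/-!
# Block LIN: volumes of linear images
-/

namespace Pool.US

open Pool.Agent.Work.LPBM (E supp Wulff CBody mp)

theorem p_LIN : Stmt_LIN := by
  intro n m d Φ
  set e := Φ.toContinuousLinearEquiv with he
  have h1 : (Measure.map e.symm (volume : Measure (E n))).IsAddHaarMeasure :=
    ContinuousLinearEquiv.isAddHaarMeasure_map e.symm volume
  refine ⟨Measure.addHaarScalarFactor (Measure.map e.symm (volume : Measure (E n)))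
    (volume : Measure (∀ i, E (d i))), ?_, ENNReal.coe_ne_top, fun S => ?_⟩
  · have := Measure.addHaarScalarFactor_pos_of_isAddHaarMeasure
      (Measure.map e.symm (volume : Measure (E n))) (volume : Measure (∀ i, E (d i)))
    exact_mod_cast this.ne'
  · have h2 := Measure.isAddLeftInvariant_eq_smul (Measure.map e.symm (volume : Measure (E n)))
      (volume : Measure (∀ i, E (d i)))
    have h3 : Measure.map e.symm (volume : Measure (E n)) S = volume (Φ '' S) := by
      have h4 := (e.symm.toHomeomorph.toMeasurableEquiv).map_apply
        (μ := (volume : Measure (E n))) S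
      have h5 : (e.symm.toHomeomorph.toMeasurableEquiv) ⁻¹' S = Φ '' S := by
        ext x
        constructor
        · intro hx
          exact ⟨_, hx, by simp [he]⟩
        · rintro ⟨y, hy, rfl⟩
          simpa [he] using hy
      rw [h5] at h4
      exact h4
    rw [← h3]
    exact congrArg (fun ν : Measure (∀ i, E (d i)) => ν S) h2

end Pool.US
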