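import Pool.Agent.Work.MP_b5407d_us.Interface

set_option autoImplicit false

open MeasureTheory Set Filter Topology
open scoped ENNReal Pointwise

/-!
# Block LPI: the product measure
-/

namespace Pool.US

open Pool.Agent.Work.LPBM (E supp Wulff CBody mp)

namespace LPI

lemma dn_meas (d : ℕ) : Measurable (dn d) := by
  unfold dn
  fun_prop

theorem lint {n : ℕ} (μ : Fin n → Measure ℝ) [∀ i, SigmaFinite (μ i)]
    (f : Fin n → ℝ → ℝ≥0∞) (hf : ∀ i, Measurable (f i)) :
    ∫⁻ x : Fin n → ℝ, ∏ i, f i (x i) ∂(Measure.pi μ) = ∏ i, ∫⁻ x, f i x ∂(μ i) := by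
  induction n with
  | zero => simp
  | succ n ih =>
      calc
        _ = ∫⁻ x : ℝ × (Fin n → ℝ),
            f 0 x.1 * ∏ i : Fin n, f (Fin.succ i) (x.2 i)
            ∂((μ 0).prod (Measure.pi (fun i ↦ μ i.succ))) := by
          rw [((measurePreserving_piFinSuccAbove μ 0).symm).lintegral_map_equiv]
          simp_rw [MeasurableEquiv.piFinSuccAbove_symm_apply, Fin.insertNthEquiv,
            Fin.prod_univ_succ, Fin.insertNth_zero, Equiv.coe_fn_mk, Fin.cons_succ,
            Fin.zero_succAbove, cast_eq, Fin.cons_zero]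
        _ = (∫⁻ x, f 0 x ∂μ 0)
            * ∏ i : Fin n, ∫⁻ x, f (Fin.succ i) x ∂(μ i.succ) := by
          rw [← ih (fun i => μ i.succ) (fun i => f i.succ) (fun i => hf _)]
          exact lintegral_prod_mul (hf 0).aemeasurable
            (Finset.measurable_prod _ fun i _ => (hf _).comp (measurable_pi_apply i)).aemeasurable
        _ = ∏ i, ∫⁻ x, f i x ∂(μ i) := by rw [Fin.prod_univ_succ]

end LPI

open LPI in
theorem p_LPI : Stmt_LPI := by
  intro m d c hc
  have h1 : ∀ i, SigmaFinite (lam (d i)) := fun i => by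
    unfold lam dn
    infer_instance
  have h2 : ∀ i, SigmaFinite (c i • lam (d i)) := fun i => by
    have h3 : c i • lam (d i) = (c i).toNNReal • lam (d i) := by
      nth_rewrite 1 [← ENNReal.coe_toNNReal (hc i)]
      rfl
    rw [h3]
    infer_instance
  refine Measure.pi_eq (fun s hs => ?_)
  rw [Measure.smul_apply, wm, withDensity_apply _ (MeasurableSet.univ_pi hs)]
  have h4 : ∫⁻ y in univ.pi s, dm d y = ∏ i, ∫⁻ y in s i, dn (d i) y := by
    rw [← lintegral_indicator (MeasurableSet.univ_pi hs)]
    have h5 : (univ.pi s).indicator (dm d) = fun y : Fin m → ℝ =>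
        ∏ i, (s i).indicator (dn (d i)) (y i) := by
      funext y
      by_cases hy : y ∈ univ.pi s
      · rw [indicator_of_mem hy]
        unfold dm
        exact Finset.prod_congr rfl fun i _ => by
          rw [indicator_of_mem (hy i (mem_univ i))]
      · rw [indicator_of_notMem hy]
        simp only [Set.mem_pi, mem_univ, true_imp_iff, not_forall] at hy
        obtain ⟨i, hi⟩ := hy
        exact (Finset.prod_eq_zero (Finset.mem_univ i) (indicator_of_notMem hi _)).symm
    rw [h5]
    have h6 := lint (fun _ : Fin m => (volume : Measure ℝ)) (fun i => (s i).indicator (dn (d i)))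
      (fun i => (dn_meas _).indicator (hs i))
    rw [← volume_pi] at h6
    rw [h6]
    exact Finset.prod_congr rfl fun i _ => lintegral_indicator (hs i) _
  rw [h4, smul_eq_mul, ← Finset.prod_mul_distrib]
  refine Finset.prod_congr rfl fun i _ => ?_
  rw [Measure.smul_apply, lam, withDensity_apply _ (hs i), smul_eq_mul]

end Pool.US
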