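import Pool.Agent.Work.MP_b5407d_us.Interface
import Pool.Agent.Work.MP_b5407d_lp_helper68.FIN
import Pool.Agent.Work.MP_b5407d_lp_helper23.CEN

/-! Block `LSC`: scaling of the logarithmic inequality. -/

set_option autoImplicit false

open MeasureTheory Set Filter Topology
open scoped ENNReal Pointwise

namespace Pool.US

open Pool.Agent.Work.LPBM (E supp Wulff CBody mp)
open Pool.Agent.Work.LPBM

theorem LSC.pow_aux {a t : ℝ} (ha : 0 < a) (n : ℕ) : (a ^ n) ^ t = (a ^ t) ^ n := by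
  rw [← Real.rpow_natCast a n, ← Real.rpow_natCast (a ^ t) n, ← Real.rpow_mul ha.le,
    ← Real.rpow_mul ha.le, mul_comm]

theorem p_LSC : Stmt_LSC := by
  intro n hn K C hK hC hL a b ha hb t ht0 ht1
  have h := hL t ht0 ht1
  obtain ⟨-, hKpos, -, -, -, -⟩ := helper23.stmt_CEN n K hn hK
  obtain ⟨-, hCpos, -, -, -, -⟩ := helper23.stmt_CEN n C hn hC
  have hsne : ∀ u ∈ Metric.sphere (0 : E n) 1, u ≠ 0 := by
    intro u hu h
    rw [h] at hu
    simp at hu
  have hca : 0 < a ^ (1 - t) := Real.rpow_pos_of_pos ha _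
  have hcb : 0 < b ^ t := Real.rpow_pos_of_pos hb _
  have hM : Wulff (fun u => supp (a • K) u ^ (1 - t) * supp (b • C) u ^ t)
      = (a ^ (1 - t) * b ^ t) • Wulff (fun u => supp K u ^ (1 - t) * supp C u ^ t) := by
    rw [← helper68.wulff_smul _ (mul_pos hca hcb)]
    apply helper68.wulff_congr
    intro u hu
    have h1 := hKpos u (hsne u hu)
    have h2 := hCpos u (hsne u hu)
    rw [helper68.smul_supp K ha, helper68.smul_supp C hb, Real.mul_rpow ha.le h1.le,
      Real.mul_rpow hb.le h2.le]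
    ring
  rw [hM, helper68.smul_vol K ha, helper68.smul_vol C hb, helper68.smul_vol _ (mul_pos hca hcb),
    Real.mul_rpow (pow_nonneg ha.le n) ENNReal.toReal_nonneg,
    Real.mul_rpow (pow_nonneg hb.le n) ENNReal.toReal_nonneg, LSC.pow_aux ha, LSC.pow_aux hb,
    mul_pow]
  have h3 : 0 ≤ (a ^ (1 - t)) ^ n * (b ^ t) ^ n := by positivity
  calc (a ^ (1 - t)) ^ n * (volume K).toReal ^ (1 - t) * ((b ^ t) ^ n * (volume C).toReal ^ t)
      = (a ^ (1 - t)) ^ n * (b ^ t) ^ n * ((volume K).toReal ^ (1 - t) * (volume C).toReal ^ t) := by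
        ring
    _ ≤ _ := mul_le_mul_of_nonneg_left h h3

end Pool.US
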