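import Pool.Agent.Work.MP_b5407d_us.Interface

set_option autoImplicit false

open MeasureTheory Set Filter Topology
open scoped ENNReal Pointwise

/-!
# Block MP1: the push forward of the volume by the logarithm of the gauge
-/

namespace Pool.US

open Pool.Agent.Work.LPBM (E supp Wulff CBody mp)

namespace MP1

lemma lam_Iic {d : ℕ} (hd : 1 ≤ d) (r : ℝ) : lam d (Iic r) = ENNReal.ofReal (Real.exp (d * r)) := by
  have hd' : (0 : ℝ) < d := by exact_mod_cast hd
  have hi := integrableOn_exp_mul_Iic hd' r
  unfold lam dn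
  rw [withDensity_apply _ measurableSet_Iic,
    ← ofReal_integral_eq_lintegral_ofReal (hi.const_mul (d : ℝ))
      (ae_of_all _ fun x => by positivity), integral_const_mul, integral_exp_mul_Iic hd']
  congr 1
  field_simp

end MP1

open MP1 in
theorem p_MP1 (h : Stmt_GAU) : Stmt_MP1 := by
  intro d hd A hA
  obtain ⟨g1, g2, g3⟩ := h d A hA
  have : Nonempty (Fin d) := ⟨⟨0, hd⟩⟩
  have : Nontrivial (E d) := by
    change Nontrivial (EuclideanSpace ℝ (Fin d))
    infer_instance
  have hm : Measurable (fun x : E d => Real.log (gauge A x)) :=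
    Real.measurable_log.comp g3.measurable
  have hvA : volume A ≠ ⊤ := hA.2.1.measure_lt_top.ne
  -- values on `Iic`
  have hL : ∀ r : ℝ, Measure.map (fun x : E d => Real.log (gauge A x)) volume (Iic r) =
      volume A * ENNReal.ofReal (Real.exp (d * r)) := by
    intro r
    rw [Measure.map_apply hm measurableSet_Iic]
    have h1 : volume ((fun x : E d => Real.log (gauge A x)) ⁻¹' (Iic r)) =
        volume (Real.exp r • A) := by
      apply measure_congr
      have h0 : ∀ᵐ x : E d, x ≠ 0 := by
        rw [ae_iff]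
        simp
      filter_upwards [h0] with x hx
      have hg : 0 < gauge A x := lt_of_le_of_ne (gauge_nonneg x) (fun h => hx ((g2 x).1 h.symm))
      apply propext
      change Real.log (gauge A x) ≤ r ↔ x ∈ Real.exp r • A
      rw [Real.log_le_iff_le_exp hg, ← g1 (Real.exp r) (Real.exp_pos r).le x]
      constructor
      · rintro ⟨y, hy, rfl⟩
        exact smul_mem_smul_set hy
      · rintro ⟨y, hy, rfl⟩
        exact ⟨y, hy, rfl⟩
    rw [h1, Measure.addHaar_smul_of_nonneg _ (Real.exp_pos r).le, mul_comm]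
    congr 2
    have hfr : Module.finrank ℝ (E d) = d := finrank_euclideanSpace_fin
    rw [hfr, ← Real.exp_nat_mul]
  have hR : ∀ r : ℝ, (volume A • lam d) (Iic r) = volume A * ENNReal.ofReal (Real.exp (d * r)) := by
    intro r
    rw [Measure.smul_apply, lam_Iic hd, smul_eq_mul]
  have hfin : ∀ r : ℝ, volume A * ENNReal.ofReal (Real.exp (d * r)) ≠ ⊤ := fun r =>
    ENNReal.mul_ne_top hvA ENNReal.ofReal_ne_top
  have hIoc : ∀ (μ : Measure ℝ), (∀ r, μ (Iic r) = volume A * ENNReal.ofReal (Real.exp (d * r))) →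
      ∀ a b : ℝ, a < b → μ (Ioc a b) = volume A * ENNReal.ofReal (Real.exp (d * b)) -
        volume A * ENNReal.ofReal (Real.exp (d * a)) := by
    intro μ hμ a b hab
    rw [show Ioc a b = Iic b \ Iic a by ext x; simp [and_comm], measure_sdiff (Iic_subset_Iic.2 hab.le) measurableSet_Iic.nullMeasurableSet
      (by rw [hμ]; exact hfin a), hμ, hμ]
  refine Measure.ext_of_Ioc' _ _ (fun a b hab => ?_) (fun a b hab => ?_)
  · rw [hIoc _ hL a b hab]
    exact (tsub_le_self.trans_lt (lt_top_iff_ne_top.2 (hfin b))).ne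
  · rw [hIoc _ hL a b hab, hIoc _ hR a b hab]

end Pool.US
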