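import Pool.Agent.Work.MP_b5407d_us.Interface
import Pool.Agent.Work.MP_3892ce_static.PLN
import Pool.Agent.Work.MP_3892ce_static.PL1

/-! # THEOREM US, block PLX: Prekopa-Leindler for profiles -/

set_option autoImplicit false

open MeasureTheory Set Filter Topology
open scoped ENNReal Pointwise

namespace Pool.US

namespace PLX

theorem dn_meas (d : ℕ) : Measurable (dn d) := by
  unfold dn
  apply ENNReal.measurable_ofReal.comp
  apply Continuous.measurable
  fun_prop

theorem dm_meas {m : ℕ} (d : Fin m → ℕ) : Measurable (dm d) := by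
  unfold dm
  apply Finset.measurable_prod
  intro i _
  exact (dn_meas (d i)).comp (measurable_pi_apply i)

theorem dn_mul (d : ℕ) (t : ℝ) (ht0 : 0 < t) (ht1 : t < 1) (x y : ℝ) :
    dn d x ^ (1 - t) * dn d y ^ t = dn d ((1 - t) * x + t * y) := by
  unfold dn
  have hx : 0 ≤ (d : ℝ) * Real.exp (d * x) := by positivity
  have hy : 0 ≤ (d : ℝ) * Real.exp (d * y) := by positivity
  rw [ENNReal.ofReal_rpow_of_nonneg hx (by linarith), ENNReal.ofReal_rpow_of_nonneg hy ht0.le,
    ← ENNReal.ofReal_mul (by positivity)]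
  congr 1
  have hd : 0 ≤ (d : ℝ) := Nat.cast_nonneg d
  rw [Real.mul_rpow hd (Real.exp_pos _).le, Real.mul_rpow hd (Real.exp_pos _).le,
    ← Real.exp_mul, ← Real.exp_mul]
  have e1 : (d : ℝ) ^ (1 - t) * (d : ℝ) ^ t = d := by
    rcases hd.eq_or_lt with h0 | h0
    · rw [← h0, Real.zero_rpow (by linarith), zero_mul]
    · rw [← Real.rpow_add h0]
      simp
  calc (d : ℝ) ^ (1 - t) * Real.exp (d * x * (1 - t)) * ((d : ℝ) ^ t * Real.exp (d * y * t))
      = ((d : ℝ) ^ (1 - t) * (d : ℝ) ^ t) *
        (Real.exp (d * x * (1 - t)) * Real.exp (d * y * t)) := by ring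
    _ = d * Real.exp (d * ((1 - t) * x + t * y)) := by
        rw [e1, ← Real.exp_add]
        congr 2
        ring

theorem dm_mul {m : ℕ} (d : Fin m → ℕ) (t : ℝ) (ht0 : 0 < t) (ht1 : t < 1) (x y : Fin m → ℝ) :
    dm d x ^ (1 - t) * dm d y ^ t = dm d ((1 - t) • x + t • y) := by
  unfold dm
  rw [← ENNReal.prod_rpow_of_nonneg (by linarith), ← ENNReal.prod_rpow_of_nonneg ht0.le,
    ← Finset.prod_mul_distrib]
  apply Finset.prod_congr rfl
  intro i _
  rw [dn_mul (d i) t ht0 ht1]
  simp

theorem LL_closed {m : ℕ} (U : Set (Fin m → ℝ)) (hU : IsCompact U) : IsClosed (LL U) := by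
  unfold LL
  apply hU.isClosed.preimage
  fun_prop

theorem wm_LL {m : ℕ} (d : Fin m → ℕ) (U : Set (Fin m → ℝ)) (hU : IsCompact U) :
    wm d (LL U) = ∫⁻ y, (LL U).indicator (dm d) y := by
  unfold wm
  rw [withDensity_apply _ (LL_closed U hU).measurableSet,
    lintegral_indicator (LL_closed U hU).measurableSet]

end PLX

open PLX in
theorem p_PLX (h : Stmt_UVC) : Stmt_PLX := by
  intro m d U V hU hV t ht0 ht1
  have hW : IsCompact (UV t U V) := h m U V hU hV t ht0 ht1
  rw [wm_LL d U hU.cpt, wm_LL d V hV.cpt, wm_LL d _ hW]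
  apply Pool.Agent.Work.MP_3892ce_static.blk_PLN Pool.Agent.Work.MP_3892ce_static.blk_PL1 m t ht0 ht1
  · exact (dm_meas d).indicator (LL_closed U hU.cpt).measurableSet
  · exact (dm_meas d).indicator (LL_closed V hV.cpt).measurableSet
  · exact (dm_meas d).indicator (LL_closed _ hW).measurableSet
  · intro x y
    by_cases hx : x ∈ LL U
    · by_cases hy : y ∈ LL V
      · rw [Set.indicator_of_mem hx, Set.indicator_of_mem hy, dm_mul d t ht0 ht1]
        have hxy : (1 - t) • x + t • y ∈ LL (UV t U V) := by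
          refine ⟨_, hx, _, hy, ?_⟩
          intro i
          simp only [Pi.add_apply, Pi.smul_apply, smul_eq_mul]
          rw [← Real.exp_mul, ← Real.exp_mul, ← Real.exp_add]
          congr 1
          ring
        rw [Set.indicator_of_mem hxy]
      · rw [Set.indicator_of_notMem hy, ENNReal.zero_rpow_of_pos ht0, mul_zero]
        exact bot_le
    · rw [Set.indicator_of_notMem hx, ENNReal.zero_rpow_of_pos (by linarith), zero_mul]
      exact bot_le

end Pool.US

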