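import Pool.Agent.Work.MP_b5407d_us.Interface

set_option autoImplicit false

open MeasureTheory Set Filter Topology
open scoped ENNReal Pointwise

namespace Pool.US

open Pool.Agent.Work.LPBM (E supp Wulff CBody mp)

theorem p_SUP : Stmt_SUP := by
  intro n m d Φ A hA U hU hc u v hv s hs
  have h1 : ∀ i, ∃ y ∈ A i, supp (A i) (v i) = inner ℝ y (v i) := by
    intro i
    obtain ⟨-, h2, h3, -⟩ := hA i
    have h4 : (A i).Nonempty := h3.mono interior_subset
    have h5 : ContinuousOn (fun y : E (d i) => (inner ℝ y (v i) : ℝ)) (A i) := by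
      fun_prop
    obtain ⟨y, hy, h6⟩ := h2.exists_isMaxOn h4 h5
    refine ⟨y, hy, ?_⟩
    unfold Pool.Agent.Work.LPBM.supp
    apply le_antisymm
    · apply csSup_le (h4.image _)
      rintro _ ⟨z, hz, rfl⟩
      exact h6 hz
    · apply le_csSup
      · exact (h2.image_of_continuousOn h5).bddAbove
      · exact ⟨y, hy, rfl⟩
  choose y hy hy2 using h1
  have h7 : Φ (fun i => s i • y i) ∈ Φ '' USum U A :=
    ⟨fun i => s i • y i, ⟨s, hs, fun i => ⟨y i, hy i, rfl⟩⟩, rfl⟩
  have h8 : BddAbove ((fun z : E n => (inner ℝ z u : ℝ)) '' (Φ '' USum U A)) := by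
    have h9 : ContinuousOn (fun z : E n => (inner ℝ z u : ℝ)) (Φ '' USum U A) := by
      fun_prop
    exact (hc.image_of_continuousOn h9).bddAbove
  have h10 := le_csSup h8 ⟨_, h7, rfl⟩
  have h11 : ∑ i, s i * supp (A i) (v i) = inner ℝ (Φ (fun i => s i • y i)) u := by
    rw [hv]
    refine Finset.sum_congr rfl fun i _ => ?_
    rw [hy2 i, real_inner_smul_left]
  rw [h11]
  exact h10

end Pool.US
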