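import Pool.Agent.Work.MP_b5407d_us.Interface

/-!
# Block SYC: symmetric sets are centered
-/

set_option autoImplicit false

open MeasureTheory Set Filter Topology
open scoped ENNReal Pointwise

namespace Pool.US

open Pool.Agent.Work.LPBM (E)

/-- `SYC` -/
theorem p_SYC : Stmt_SYC := by
  intro d A hA
  have hmem : ∀ x : E d, -x ∈ A ↔ x ∈ A := fun x =>
    ⟨fun h => by simpa using hA (-x) h, fun h => hA x h⟩
  have hpre : (fun x : E d => -x) ⁻¹' A = A := by
    ext x
    exact hmem x
  have hmp : MeasurePreserving (fun x : E d => -x) volume volume := Measure.measurePreserving_neg volume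
  have h1 : (∫ x in A, x) = ∫ x in A, -x := by
    have h := hmp.setIntegral_preimage_emb (MeasurableEquiv.neg (E d)).measurableEmbedding
      (fun x : E d => x) A
    rw [hpre] at h
    exact h.symm
  rw [integral_neg] at h1
  have h2 : (2 : ℝ) • (∫ x in A, x) = 0 := by
    rw [two_smul]
    nth_rewrite 2 [h1]
    exact add_neg_cancel _
  exact (smul_eq_zero.mp h2).resolve_left two_ne_zero

end Pool.US
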