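import Pool.Agent.Work.MP_b5407d_us.Interface

/-!
# VLW, VUP: the volume of a sum
-/

set_option autoImplicit false

open MeasureTheory Set Filter Topology
open scoped ENNReal Pointwise

namespace Pool.US

open Pool.Agent.Work.LPBM (E supp Wulff CBody mp)

namespace VLW

theorem sf_lam (d : ℕ) : SigmaFinite (lam d) :=
  SigmaFinite.withDensity_of_ne_top (ae_of_all _ fun _ => ENNReal.ofReal_ne_top)

theorem sf_smul {c : ℝ≥0∞} (hc : c ≠ ⊤) (d : ℕ) : SigmaFinite (c • lam d) := by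
  haveI := sf_lam d
  lift c to NNReal using hc
  exact (inferInstance : SigmaFinite (c • lam d))

theorem log_meas (h1 : Stmt_GAU) {d : ℕ} {A : Set (E d)} (hA : Bd A) :
    Measurable fun x : E d => Real.log (gauge A x) :=
  (h1 d A hA).2.2.measurable.log

/-- the map -/
noncomputable def ff {m : ℕ} {d : Fin m → ℕ} (A : ∀ i, Set (E (d i))) (x : ∀ i, E (d i)) :
    Fin m → ℝ := fun i => Real.log (gauge (A i) (x i))

theorem ff_meas (h1 : Stmt_GAU) {m : ℕ} {d : Fin m → ℕ} (A : ∀ i, Set (E (d i)))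
    (hA : ∀ i, Bd (A i)) : Measurable (ff A) :=
  measurable_pi_lambda _ fun i => (log_meas h1 (hA i)).comp (measurable_pi_apply i)

theorem key (h1 : Stmt_GAU) (h2 : Stmt_MP1) (h3 : Stmt_LPI) {m : ℕ} {d : Fin m → ℕ}
    (hd : ∀ i, 1 ≤ d i) (A : ∀ i, Set (E (d i))) (hA : ∀ i, Bd (A i)) :
    Measure.map (ff A) volume = (∏ i, volume (A i)) • wm d := by
  have hfin : ∀ i, volume (A i) ≠ ⊤ := fun i => (hA i).2.1.measure_lt_top.ne
  have he : ∀ i, (volume : Measure (E (d i))).map (fun x => Real.log (gauge (A i) x)) =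
      volume (A i) • lam (d i) := fun i => h2 (d i) (hd i) (A i) (hA i)
  haveI hsf : ∀ i, SigmaFinite
      ((volume : Measure (E (d i))).map (fun x => Real.log (gauge (A i) x))) := by
    intro i
    rw [he i]
    exact sf_smul (hfin i) (d i)
  have h := Measure.pi_map_pi (μ := fun i => (volume : Measure (E (d i))))
    (f := fun i (x : E (d i)) => Real.log (gauge (A i) x))
    (fun i => (log_meas h1 (hA i)).aemeasurable)
  have h5 : Measure.pi (fun i => (volume : Measure (E (d i))).map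
      (fun x => Real.log (gauge (A i) x))) = Measure.pi (fun i => volume (A i) • lam (d i)) := by
    congr 1
    funext i
    exact he i
  rw [h5, h3 m d _ hfin] at h
  exact h

theorem null {m : ℕ} {d : Fin m → ℕ} (hd : ∀ i, 1 ≤ d i) :
    volume {x : ∀ i, E (d i) | ∃ i, x i = 0} = 0 := by
  have he : {x : ∀ i, E (d i) | ∃ i, x i = 0} = ⋃ i, Function.eval i ⁻¹' {(0 : E (d i))} := by
    ext x
    simp
  rw [he]
  refine measure_iUnion_null fun i => ?_
  rw [volume_pi]
  refine Measure.pi_eval_preimage_null _ ?_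
  haveI : Nonempty (Fin (d i)) := ⟨⟨0, hd i⟩⟩
  haveI : Nontrivial (E (d i)) := inferInstance
  exact measure_singleton 0

theorem LL_meas {m : ℕ} {W : Set (Fin m → ℝ)} (hW : IsClosed W) : MeasurableSet (LL W) := by
  have hc : Continuous fun y : Fin m → ℝ => (fun i => Real.exp (y i) : Fin m → ℝ) :=
    continuous_pi fun i => Real.continuous_exp.comp (continuous_apply i)
  exact (hW.preimage hc).measurableSet

theorem vol_pre (h1 : Stmt_GAU) (h2 : Stmt_MP1) (h3 : Stmt_LPI) {m : ℕ} {d : Fin m → ℕ}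
    (hd : ∀ i, 1 ≤ d i) (A : ∀ i, Set (E (d i))) (hA : ∀ i, Bd (A i)) {W : Set (Fin m → ℝ)}
    (hW : IsClosed W) : volume (ff A ⁻¹' (LL W)) = (∏ i, volume (A i)) * wm d (LL W) := by
  rw [← Measure.map_apply (ff_meas h1 A hA) (LL_meas hW), key h1 h2 h3 hd A hA]
  rfl

end VLW

theorem p_VLW (h1 : Stmt_GAU) (h2 : Stmt_MP1) (h3 : Stmt_LPI) : Stmt_VLW := by
  intro m d hd A hA W hW
  rw [← VLW.vol_pre h1 h2 h3 hd A hA hW]
  have hsub : VLW.ff A ⁻¹' (LL W) ⊆ USum W A ∪ {x : ∀ i, E (d i) | ∃ i, x i = 0} := by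
    intro x hx
    by_cases h0 : ∃ i, x i = 0
    · exact Or.inr h0
    · left
      push Not at h0
      have hx' : (fun i => Real.exp (VLW.ff A x i)) ∈ W := hx
      have he : (fun i => Real.exp (VLW.ff A x i)) = fun i => gauge (A i) (x i) := by
        funext i
        have hne : gauge (A i) (x i) ≠ 0 := fun h => h0 i (((h1 (d i) (A i) (hA i)).2.1 (x i)).1 h)
        exact Real.exp_log (lt_of_le_of_ne (gauge_nonneg _) (Ne.symm hne))
      rw [he] at hx'
      refine ⟨_, hx', fun i => ?_⟩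
      exact ((h1 (d i) (A i) (hA i)).1 _ (gauge_nonneg _) (x i)).2 le_rfl
  calc volume (VLW.ff A ⁻¹' (LL W)) ≤ volume (USum W A ∪ {x : ∀ i, E (d i) | ∃ i, x i = 0}) :=
        measure_mono hsub
    _ ≤ volume (USum W A) + volume {x : ∀ i, E (d i) | ∃ i, x i = 0} := measure_union_le _ _
    _ = volume (USum W A) := by rw [VLW.null hd, add_zero]

theorem p_VUP (h1 : Stmt_GAU) (h2 : Stmt_MP1) (h3 : Stmt_LPI) : Stmt_VUP := by
  intro m d hd A hA U hU
  rw [← VLW.vol_pre h1 h2 h3 hd A hA hU.cpt.isClosed]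
  have hsub : USum U A ⊆ VLW.ff A ⁻¹' (LL U) ∪ {x : ∀ i, E (d i) | ∃ i, x i = 0} := by
    intro x hx
    by_cases h0 : ∃ i, x i = 0
    · exact Or.inr h0
    · left
      push Not at h0
      obtain ⟨s, hs, hsx⟩ := hx
      show (fun i => Real.exp (VLW.ff A x i)) ∈ U
      have he : (fun i => Real.exp (VLW.ff A x i)) = fun i => gauge (A i) (x i) := by
        funext i
        have hne : gauge (A i) (x i) ≠ 0 := fun h => h0 i (((h1 (d i) (A i) (hA i)).2.1 (x i)).1 h)
        exact Real.exp_log (lt_of_le_of_ne (gauge_nonneg _) (Ne.symm hne))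
      rw [he]
      refine hU.down s hs _ fun i => ⟨gauge_nonneg _, ?_⟩
      exact ((h1 (d i) (A i) (hA i)).1 _ (hU.nonneg s hs i) (x i)).1 (hsx i)
  calc volume (USum U A) ≤ volume (VLW.ff A ⁻¹' (LL U) ∪ {x : ∀ i, E (d i) | ∃ i, x i = 0}) :=
        measure_mono hsub
    _ ≤ volume (VLW.ff A ⁻¹' (LL U)) + volume {x : ∀ i, E (d i) | ∃ i, x i = 0} :=
        measure_union_le _ _
    _ = volume (VLW.ff A ⁻¹' (LL U)) := by rw [VLW.null hd, add_zero]

end Pool.US
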