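import Pool.Agent.Work.MP_b5407d_us.CNT
import Pool.Agent.Work.MP_b5407d_us.Core
import Pool.Agent.Work.MP_b5407d_us.DBD
import Pool.Agent.Work.MP_b5407d_us.DFN
import Pool.Agent.Work.MP_b5407d_us.DIN
import Pool.Agent.Work.MP_b5407d_us.FC1
import Pool.Agent.Work.MP_b5407d_us.FC2
import Pool.Agent.Work.MP_b5407d_us.FC3
import Pool.Agent.Work.MP_b5407d_us.GAU
import Pool.Agent.Work.MP_b5407d_us.HLD
import Pool.Agent.Work.MP_b5407d_us.INC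
import Pool.Agent.Work.MP_b5407d_us.LEQ
import Pool.Agent.Work.MP_b5407d_us.LFN
import Pool.Agent.Work.MP_b5407d_us.LGP
import Pool.Agent.Work.MP_b5407d_us.LIN
import Pool.Agent.Work.MP_b5407d_us.LPI
import Pool.Agent.Work.MP_b5407d_us.LSC
import Pool.Agent.Work.MP_b5407d_us.MP1
import Pool.Agent.Work.MP_b5407d_us.PLX
import Pool.Agent.Work.MP_b5407d_us.SUP
import Pool.Agent.Work.MP_b5407d_us.SYC
import Pool.Agent.Work.MP_b5407d_us.UVC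
import Pool.Agent.Work.MP_b5407d_us.VLW

/-!
THEOREM US, all blocks together.
-/

set_option autoImplicit false

open MeasureTheory Set Filter Topology
open scoped ENNReal Pointwise

namespace Pool.US

open Pool.Agent.Work.LPBM (E supp Wulff CBody mp)

theorem all (p : ℝ) (hp0 : 0 < p) (hp1 : p < 1) (n : ℕ) (hn : 1 ≤ n) (m : ℕ) (d : Fin m → ℕ)
    (Φ : (∀ i, E (d i)) ≃ₗ[ℝ] E n) (A B : ∀ i, Set (E (d i))) (hF : ∀ i, FacG (A i) (B i))
    (U V : Set (Fin m → ℝ)) (hU : Prof U) (hV : Prof V)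
    (hK1 : Convex ℝ (Φ '' USum U A)) (hK2 : IsCompact (Φ '' USum U A))
    (hK3 : (interior (Φ '' USum U A)).Nonempty)
    (hC1 : Convex ℝ (Φ '' USum V B)) (hC2 : IsCompact (Φ '' USum V B))
    (hC3 : (interior (Φ '' USum V B)).Nonempty) :
    (∫ x in Φ '' USum U A, x) = 0 ∧ (∫ x in Φ '' USum V B, x) = 0 ∧
    Q1Pair p (Φ '' USum U A) (Φ '' USum V B) :=
  have hK := p_CNT n m d (fun i => (hF i).2.2.1) Φ A (fun i => (hF i).1) U hU hK2
  have hC := p_CNT n m d (fun i => (hF i).2.2.1) Φ B (fun i => (hF i).2.1) V hV hC2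
  ⟨hK, hC, core p_FC1 p_FC2 p_FC3 (p_DBD Pool.Agent.Work.LPBM.helper23.stmt_CEN)
    (p_VLW p_GAU (p_MP1 p_GAU) p_LPI) (p_VUP p_GAU (p_MP1 p_GAU) p_LPI) p_UVC (p_PLX p_UVC)
    (p_INC p_HLD p_DFN p_SUP p_DIN) p_LIN (p_LFN p_LGP p_LSC (p_LEQ p_LGP))
    p hp0 hp1 n hn m d Φ A B hF U V hU hV ⟨hK1, hK2, hK3, hK⟩ ⟨hC1, hC2, hC3, hC⟩⟩

end Pool.US
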