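import Pool.Agent.Work.MP_b5407d_us.GAU
import Pool.Agent.Work.MP_b5407d_us.LIN
import Pool.Agent.Work.MP_b5407d_lp_helper68.FIN
import Pool.Agent.Work.MP_b5407d_lp_helper23.CEN

/-!
# CNT: sums of centered bodies are centered
-/

set_option autoImplicit false

open MeasureTheory Set Filter Topology
open scoped ENNReal Pointwise

namespace Pool.US

open Pool.Agent.Work.LPBM (E supp Wulff CBody mp)

namespace CNT

theorem bd_of {d : ℕ} (hd : 1 ≤ d) {A : Set (E d)} (hA : CBody A) : Bd A :=
  ⟨hA.1, hA.2.1, (Pool.Agent.Work.LPBM.helper23.stmt_CEN d A hd hA).1⟩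

theorem ball_int {d : ℕ} (hd : 1 ≤ d) {A : Set (E d)} (hA : CBody A) {r : ℝ} (hr : 0 ≤ r) :
    (∫ x in {x : E d | gauge A x ≤ r}, x) = 0 := by
  have hG := p_GAU d A (bd_of hd hA)
  have hset : {x : E d | gauge A x ≤ r} = r • A := by
    ext x
    rw [mem_ofPred_eq, ← hG.1 r hr x, mem_smul_set]
    constructor
    · rintro ⟨y, hy, rfl⟩
      exact ⟨y, hy, rfl⟩
    · rintro ⟨y, hy, rfl⟩
      exact ⟨y, hy, rfl⟩
  rcases hr.eq_or_lt with h0 | h0
  · refine setIntegral_eq_zero_of_forall_eq_zero ?_
    intro x hx
    have h1 : gauge A x ≤ 0 := by rw [h0]; exact hx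
    exact (hG.2.1 x).1 (le_antisymm h1 (gauge_nonneg x))
  · rw [hset]
    exact (Pool.Agent.Work.LPBM.helper68.smul_body hA h0).2.2.2

/-- the set of a down-closed set in terms of the gauges -/
theorem mem_sum {m : ℕ} {d : Fin m → ℕ} {A : ∀ i, Set (E (d i))} (hA : ∀ i, Bd (A i))
    {U : Set (Fin m → ℝ)} (hU : Prof U) (x : ∀ i, E (d i)) :
    x ∈ USum U A ↔ (fun i => gauge (A i) (x i)) ∈ U := by
  constructor
  · rintro ⟨s, hs, h⟩
    exact hU.down s hs _ fun i =>
      ⟨gauge_nonneg _, ((p_GAU _ _ (hA i)).1 (s i) (hU.nonneg s hs i) (x i)).1 (h i)⟩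
  · intro h
    exact ⟨_, h, fun i => ((p_GAU _ _ (hA i)).1 (gauge (A i) (x i)) (gauge_nonneg _) (x i)).2
      le_rfl⟩

/-- sections -/
theorem sec {m : ℕ} {d : ℕ} (hd : 1 ≤ d) {A : Set (E d)} (hA : CBody A)
    {U : Set (Fin (m + 1) → ℝ)} (hU : Prof U) (i : Fin (m + 1)) (g : Fin m → ℝ) :
    (∫ y in {y : E d | i.insertNth (gauge A y) g ∈ U}, y) = 0 := by
  set T : Set ℝ := {s | (i.insertNth s g : Fin (m + 1) → ℝ) ∈ U} with hT
  have hcont : Continuous (fun s : ℝ => (i.insertNth s g : Fin (m + 1) → ℝ)) := by
    refine continuous_pi fun j => ?_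
    refine Fin.succAboveCases i ?_ (fun k => ?_) j
    · simpa using continuous_id'
    · simpa using continuous_const
  have hTc : IsClosed T := hU.cpt.isClosed.preimage hcont
  have hT0 : ∀ s ∈ T, 0 ≤ s := by
    intro s hs
    have := hU.nonneg _ hs i
    simpa using this
  have hdown : ∀ s ∈ T, ∀ r, 0 ≤ r → r ≤ s → r ∈ T := by
    intro s hs r hr hrs
    refine hU.down _ hs _ fun j => ?_
    refine Fin.succAboveCases i ?_ (fun k => ?_) j
    · simpa using ⟨hr, hrs⟩
    · have := hU.nonneg _ hs (i.succAbove k)
      simpa using this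
  have hb : BddAbove T := by
    obtain ⟨M, hM⟩ := (hU.cpt.image (continuous_apply i)).bddAbove
    refine ⟨M, fun s hs => ?_⟩
    refine hM ⟨_, hs, ?_⟩
    simp
  by_cases hne : T.Nonempty
  · have hmem : sSup T ∈ T := hTc.csSup_mem hne hb
    have hset : {y : E d | i.insertNth (gauge A y) g ∈ U} = {y : E d | gauge A y ≤ sSup T} := by
      ext y
      constructor
      · intro hy
        exact le_csSup hb hy
      · intro hy
        exact hdown _ hmem _ (gauge_nonneg y) hy
    rw [hset]
    exact ball_int hd hA (hT0 _ hmem)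
  · have hset : {y : E d | i.insertNth (gauge A y) g ∈ U} = ∅ := by
      ext y
      simp only [mem_ofPred_eq, mem_empty_iff_false, iff_false]
      intro hy
      exact hne ⟨_, hy⟩
    rw [hset]
    simp

theorem coord {m : ℕ} {d : Fin m → ℕ} (hd : ∀ i, 1 ≤ d i) {A : ∀ i, Set (E (d i))}
    (hA : ∀ i, CBody (A i)) {U : Set (Fin m → ℝ)} (hU : Prof U) (hc : IsCompact (USum U A))
    (i : Fin m) : (∫ x in USum U A, x i) = 0 := by
  obtain _ | m := m
  · exact i.elim0
  have hAb : ∀ j, Bd (A j) := fun j => bd_of (hd j) (hA j)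
  have hmp := volume_preserving_piFinSuccAbove (fun j : Fin (m + 1) => E (d j)) i
  set e := MeasurableEquiv.piFinSuccAbove (fun j : Fin (m + 1) => E (d j)) i with he
  let S' : Set (E (d i) × (∀ j : Fin m, E (d (i.succAbove j)))) :=
    {q | (i.insertNth (gauge (A i) q.1) (fun j => gauge (A (i.succAbove j)) (q.2 j)) :
      Fin (m + 1) → ℝ) ∈ U}
  let g : E (d i) × (∀ j : Fin m, E (d (i.succAbove j))) → E (d i) := S'.indicator Prod.fst
  have hge : ∀ x, g (e x) = (USum U A).indicator (fun x => x i) x := by
    intro x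
    have h1 : e x ∈ S' ↔ x ∈ USum U A := by
      rw [mem_sum hAb hU]
      have h2 : (i.insertNth (gauge (A i) (e x).1) (fun j => gauge (A (i.succAbove j)) ((e x).2 j)) :
          Fin (m + 1) → ℝ) = fun j => gauge (A j) (x j) := by
        funext j
        refine Fin.succAboveCases i ?_ (fun k => ?_) j
        · simp [he, MeasurableEquiv.piFinSuccAbove]
        · simp [he, MeasurableEquiv.piFinSuccAbove, Fin.removeNth]
      show (i.insertNth (gauge (A i) (e x).1) (fun j => gauge (A (i.succAbove j)) ((e x).2 j)) :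
          Fin (m + 1) → ℝ) ∈ U ↔ _
      rw [h2]
    by_cases hx : x ∈ USum U A
    · rw [indicator_of_mem hx]
      show S'.indicator Prod.fst (e x) = x i
      rw [indicator_of_mem (h1.2 hx)]
      rfl
    · rw [indicator_of_notMem hx]
      show S'.indicator Prod.fst (e x) = 0
      rw [indicator_of_notMem (fun h => hx (h1.1 h))]
  have hint0 : Integrable ((USum U A).indicator (fun x : ∀ j, E (d j) => x i)) := by
    rw [integrable_indicator_iff hc.isClosed.measurableSet]
    exact (continuous_apply i).continuousOn.integrableOn_compact hc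
  have hint : Integrable g (volume.prod volume) := by
    have h1 : Integrable (g ∘ e) volume := by
      have : g ∘ e = (USum U A).indicator (fun x : ∀ j, E (d j) => x i) := funext hge
      rw [this]
      exact hint0
    exact (hmp.integrable_comp_emb e.measurableEmbedding).1 h1
  have hS'm : MeasurableSet S' := by
    have : S' = e.symm ⁻¹' (USum U A) := by
      ext q
      obtain ⟨x, rfl⟩ := e.surjective q
      rw [mem_preimage, e.symm_apply_apply, mem_sum hAb hU]
      have h2 : (i.insertNth (gauge (A i) (e x).1) (fun j => gauge (A (i.succAbove j)) ((e x).2 j)) :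
          Fin (m + 1) → ℝ) = fun j => gauge (A j) (x j) := by
        funext j
        refine Fin.succAboveCases i ?_ (fun k => ?_) j
        · simp [he, MeasurableEquiv.piFinSuccAbove]
        · simp [he, MeasurableEquiv.piFinSuccAbove, Fin.removeNth]
      show (i.insertNth (gauge (A i) (e x).1) (fun j => gauge (A (i.succAbove j)) ((e x).2 j)) :
          Fin (m + 1) → ℝ) ∈ U ↔ _
      rw [h2]
    rw [this]
    exact e.symm.measurable hc.isClosed.measurableSet
  calc (∫ x in USum U A, x i) = ∫ x, (USum U A).indicator (fun x : ∀ j, E (d j) => x i) x :=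
        (integral_indicator hc.isClosed.measurableSet).symm
    _ = ∫ x, g (e x) := by simp_rw [hge]
    _ = ∫ q, g q ∂(volume.prod volume) := hmp.integral_comp e.measurableEmbedding g
    _ = ∫ z, ∫ y, g (y, z) := integral_prod_symm g hint
    _ = ∫ _ : (∀ j : Fin m, E (d (i.succAbove j))), (0 : E (d i)) := by
        congr 1
        funext z
        have h1 : (fun y => g (y, z)) = {y : E (d i) | i.insertNth (gauge (A i) y)
            (fun j => gauge (A (i.succAbove j)) (z j)) ∈ U}.indicator (fun y => y) := by
          funext y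
          by_cases hy : (y, z) ∈ S'
          · show S'.indicator Prod.fst (y, z) = _
            rw [indicator_of_mem hy, indicator_of_mem (show y ∈ {y : E (d i) | i.insertNth
              (gauge (A i) y) (fun j => gauge (A (i.succAbove j)) (z j)) ∈ U} from hy)]
          · show S'.indicator Prod.fst (y, z) = _
            rw [indicator_of_notMem hy, indicator_of_notMem (show y ∉ {y : E (d i) | i.insertNth
              (gauge (A i) y) (fun j => gauge (A (i.succAbove j)) (z j)) ∈ U} from hy)]
        have hm : MeasurableSet {y : E (d i) | i.insertNth (gauge (A i) y)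
            (fun j => gauge (A (i.succAbove j)) (z j)) ∈ U} :=
          hS'm.preimage (measurable_id.prodMk measurable_const)
        rw [h1, integral_indicator hm]
        exact sec (hd i) (hA i) hU i _
    _ = 0 := integral_zero _ _

end CNT

/-- sums of centered bodies are centered -/
theorem p_CNT (n m : ℕ) (d : Fin m → ℕ) (hd : ∀ i, 1 ≤ d i) (Φ : (∀ i, E (d i)) ≃ₗ[ℝ] E n)
    (A : ∀ i, Set (E (d i))) (hA : ∀ i, CBody (A i)) (U : Set (Fin m → ℝ)) (hU : Prof U)
    (hK : IsCompact (Φ '' USum U A)) : (∫ x in Φ '' USum U A, x) = 0 := by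
  have hΦ : Continuous Φ := LinearMap.continuous_of_finiteDimensional Φ.toLinearMap
  have hΦs : Continuous Φ.symm := LinearMap.continuous_of_finiteDimensional Φ.symm.toLinearMap
  have hS : IsCompact (USum U A) := by
    have h1 : USum U A = Φ.symm '' (Φ '' USum U A) := by
      rw [← image_comp]
      simp
    rw [h1]
    exact hK.image hΦs
  obtain ⟨c, hc0, hct, hc⟩ := p_LIN n m d Φ
  have hvol : (volume : Measure (E n)) = c • Measure.map Φ volume := by
    ext T hT
    rw [Measure.smul_apply, Measure.map_apply hΦ.measurable hT, smul_eq_mul, ← hc,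
      image_preimage_eq T Φ.surjective]
  have h1 : (∫ x in Φ '' USum U A, x) = c.toReal • ∫ y in USum U A, Φ y := by
    have hemb : MeasurableEmbedding Φ :=
      (Φ.toContinuousLinearEquiv.toHomeomorph).measurableEmbedding
    conv_lhs => rw [hvol]
    rw [Measure.restrict_smul, integral_smul_measure, hemb.setIntegral_map,
      preimage_image_eq _ Φ.injective]
  have h2 : (∫ y in USum U A, Φ y) = Φ (∫ y in USum U A, y) := by
    have hi : IntegrableOn (fun y : ∀ i, E (d i) => y) (USum U A) :=
      continuous_id.continuousOn.integrableOn_compact hS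
    exact (Φ.toContinuousLinearEquiv.toContinuousLinearMap).integral_comp_comm hi
  have h3 : (∫ y in USum U A, y) = 0 := by
    funext i
    have hi : IntegrableOn (fun y : ∀ i, E (d i) => y) (USum U A) :=
      continuous_id.continuousOn.integrableOn_compact hS
    have := (ContinuousLinearMap.proj (R := ℝ) (φ := fun i => E (d i)) i).integral_comp_comm hi
    simp only [ContinuousLinearMap.proj_apply] at this
    rw [← this]
    exact CNT.coord hd hA hU hS i
  rw [h1, h2, h3, map_zero, smul_zero]

end Pool.US
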