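import Pool.Agent.Work.MP_b5407d_us.Interface
import Pool.Agent.Work.MP_b5407d_lp_helper23.CEN

/-! # THEOREM US, block INC: the inclusion -/

set_option autoImplicit false

open MeasureTheory Set Filter Topology
open scoped ENNReal Pointwise

namespace Pool.US

open Pool.Agent.Work.LPBM (E supp Wulff CBody mp)

namespace INC

theorem supp_nonneg {d : ℕ} (hd : 1 ≤ d) {A : Set (E d)} (hA : CBody A) (v : E d) :
    0 ≤ supp A v := by
  obtain ⟨h0, _, _, _, h4, _⟩ := Pool.Agent.Work.LPBM.helper23.stmt_CEN d A hd hA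
  have := h4 v 0 (interior_subset h0)
  simpa using this

end INC

open INC in
theorem p_INC (h1 : Stmt_HLD) (h2 : Stmt_DFN) (h3 : Stmt_SUP) (h4 : Stmt_DIN) : Stmt_INC := by
  intro n m d hd Φ A B hA hB U V hU hV hcA hcB t ht0 ht1
  rintro _ ⟨z, ⟨s, ⟨a, ha, b, hb, hs⟩, hz⟩, rfl⟩ u _
  obtain ⟨v, hv⟩ := h2 n m d Φ u
  choose y hy hzy using hz
  have sA : ∀ i, 0 ≤ supp (A i) (v i) := fun i => supp_nonneg (hd i) (hA i) _
  have sB : ∀ i, 0 ≤ supp (B i) (v i) := fun i => supp_nonneg (hd i) (hB i) _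
  have a0 : ∀ i, 0 ≤ a i := hU.nonneg a ha
  have b0 : ∀ i, 0 ≤ b i := hV.nonneg b hb
  have k1 := h3 n m d Φ A hA U hU hcA u v hv a ha
  have k2 := h3 n m d Φ B hB V hV hcB u v hv b hb
  have k0 : inner ℝ (Φ z) u ≤ ∑ i, (a i * supp (A i) (v i)) ^ (1 - t) *
      (b i * supp (B i) (v i)) ^ t := by
    rw [hv z]
    apply Finset.sum_le_sum
    intro i _
    rw [hzy i, real_inner_smul_left, hs i, Real.mul_rpow (a0 i) (sA i),
      Real.mul_rpow (b0 i) (sB i)]
    have hi := h4 (d i) (hd i) (A i) (B i) (hA i) (hB i) t ht0 ht1 (y i) (hy i) (v i)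
    have hp : 0 ≤ a i ^ (1 - t) * b i ^ t :=
      mul_nonneg (Real.rpow_nonneg (a0 i) _) (Real.rpow_nonneg (b0 i) _)
    calc a i ^ (1 - t) * b i ^ t * inner ℝ (y i) (v i)
        ≤ a i ^ (1 - t) * b i ^ t * (supp (A i) (v i) ^ (1 - t) * supp (B i) (v i) ^ t) :=
          mul_le_mul_of_nonneg_left hi hp
      _ = a i ^ (1 - t) * supp (A i) (v i) ^ (1 - t) * (b i ^ t * supp (B i) (v i) ^ t) := by
          ring
  have k3 := h1 m (fun i => a i * supp (A i) (v i)) (fun i => b i * supp (B i) (v i))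
    (fun i => mul_nonneg (a0 i) (sA i)) (fun i => mul_nonneg (b0 i) (sB i)) t ht0 ht1
  have p1 : 0 ≤ ∑ i, a i * supp (A i) (v i) :=
    Finset.sum_nonneg fun i _ => mul_nonneg (a0 i) (sA i)
  have p2 : 0 ≤ ∑ i, b i * supp (B i) (v i) :=
    Finset.sum_nonneg fun i _ => mul_nonneg (b0 i) (sB i)
  refine k0.trans (k3.trans ?_)
  apply mul_le_mul
  · exact Real.rpow_le_rpow p1 k1 (by linarith)
  · exact Real.rpow_le_rpow p2 k2 ht0.le
  · exact Real.rpow_nonneg p2 _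
  · exact Real.rpow_nonneg (p1.trans k1) _

end Pool.US

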