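import Pool.Agent.Work.MP_b5407d_lp.Interface
import Pool.Agent.Work.MP_3892ce_static.Interface

/-!
# THEOREM US: the `L_p`-Brunn-Minkowski inequality for unconditional sums

All dimensions, all `0 < p < 1`: bodies `K = Φ {x : (‖x_i‖_{A_i})_i ∈ U}`,
`C = Φ {x : (‖x_i‖_{B_i})_i ∈ V}` with factors `A_i, B_i` of dimension `≤ 2` (centered) or `3` (symmetric).
-/

set_option autoImplicit false

open MeasureTheory Set Filter Topology
open scoped ENNReal Pointwise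

namespace Pool.US

open Pool.Agent.Work.LPBM (E supp Wulff CBody mp)

/-- convex body with the origin in its interior -/
def Bd {n : ℕ} (K : Set (E n)) : Prop := Convex ℝ K ∧ IsCompact K ∧ (0 : E n) ∈ interior K

/-- the logarithmic Brunn-Minkowski inequality for one pair -/
def LogPair {n : ℕ} (K C : Set (E n)) : Prop := ∀ t : ℝ, 0 < t → t < 1 →
  (volume K).toReal ^ (1 - t) * (volume C).toReal ^ t ≤
    (volume (Wulff fun u => supp K u ^ (1 - t) * supp C u ^ t)).toReal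

/-- admissible pairs of factors -/
def Fac (d : ℕ) (A B : Set (E d)) : Prop := CBody A ∧ CBody B ∧
  ((1 ≤ d ∧ d ≤ 2) ∨ (d = 3 ∧ (∀ x ∈ A, -x ∈ A) ∧ (∀ x ∈ B, -x ∈ B)))

/-- the sum of the sets `A i` with profile `U`: all `(s_i y_i)`, `s ∈ U`, `y_i ∈ A i` -/
def USum {m : ℕ} {d : Fin m → ℕ} (U : Set (Fin m → ℝ)) (A : ∀ i, Set (E (d i))) :
    Set (∀ i, E (d i)) :=
  {x | ∃ s ∈ U, ∀ i, ∃ y ∈ A i, x i = s i • y}

/-- profiles: compact, nonnegative, down-closed -/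
structure Prof {m : ℕ} (U : Set (Fin m → ℝ)) : Prop where
  cpt : IsCompact U
  nonneg : ∀ s ∈ U, ∀ i, 0 ≤ s i
  down : ∀ s ∈ U, ∀ r : Fin m → ℝ, (∀ i, 0 ≤ r i ∧ r i ≤ s i) → r ∈ U

/-- the density of the push forward of the volume of `E d` by `log ‖x‖_A`, `vol A = 1` -/
noncomputable def dn (d : ℕ) (y : ℝ) : ℝ≥0∞ := ENNReal.ofReal (d * Real.exp (d * y))

/-- the measure with this density -/
noncomputable def lam (d : ℕ) : Measure ℝ := (volume : Measure ℝ).withDensity (dn d)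

/-- density on `ℝ^m` -/
noncomputable def dm {m : ℕ} (d : Fin m → ℕ) (y : Fin m → ℝ) : ℝ≥0∞ := ∏ i, dn (d i) (y i)

/-- the product measure -/
noncomputable def wm {m : ℕ} (d : Fin m → ℕ) : Measure (Fin m → ℝ) :=
  (volume : Measure (Fin m → ℝ)).withDensity (dm d)

/-- logarithmic image of a profile -/
def LL {m : ℕ} (U : Set (Fin m → ℝ)) : Set (Fin m → ℝ) := {y | (fun i => Real.exp (y i)) ∈ U}

/-- the geometric mean of two profiles -/
def UV {m : ℕ} (t : ℝ) (U V : Set (Fin m → ℝ)) : Set (Fin m → ℝ) :=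
  {s | ∃ a ∈ U, ∃ b ∈ V, ∀ i, s i = a i ^ (1 - t) * b i ^ t}

/-- the factor of the geometric mean -/
def DD {d : ℕ} (t : ℝ) (A B : Set (E d)) : Set (E d) :=
  Wulff fun u => supp A u ^ (1 - t) * supp B u ^ t

/-! ## the last step: from the logarithmic inequality to all `p` -/

/-- `LGP`: `M_0 ≤ M_p` -/
def Stmt_LGP : Prop := ∀ (n : ℕ), 1 ≤ n → ∀ K C : Set (E n), CBody K → CBody C → LogPair K C →
  ∀ p : ℝ, 0 < p → ∀ t : ℝ, 0 < t → t < 1 →
  (volume K).toReal ^ (1 - t) * (volume C).toReal ^ t ≤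
    (volume (Wulff (fun u => mp p t (supp K u) (supp C u)))).toReal

/-- `LSC`: scaling of the logarithmic inequality -/
def Stmt_LSC : Prop := ∀ (n : ℕ), 1 ≤ n → ∀ K C : Set (E n), CBody K → CBody C → LogPair K C →
  ∀ a b : ℝ, 0 < a → 0 < b → LogPair (a • K) (b • C)

/-- `LEQ`: the case of equality, equal volumes (copy of `helper68.EQL`, with `p/2` for the smaller
exponent and `Stmt_LGP` instead of `Stmt_GEN`) -/
def Stmt_LEQ : Prop := ∀ (n : ℕ), 1 ≤ n → ∀ K C : Set (E n), CBody K → CBody C → LogPair K C →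
  ∀ p : ℝ, 0 < p → (volume K).toReal = (volume C).toReal → ∀ t : ℝ, 0 < t → t < 1 →
  (volume (Wulff (fun u => mp p t (supp K u) (supp C u)))).toReal = (volume K).toReal → K = C

/-- the conclusion of Q1 for one pair -/
def Q1Pair {n : ℕ} (p : ℝ) (K C : Set (E n)) : Prop :=
  ∀ (α β : ℝ), 0 < α → 0 < β →
      (α * (volume K).toReal ^ (p / (n : ℝ)) + β * (volume C).toReal ^ (p / (n : ℝ))
        ≤ (volume {x : EuclideanSpace ℝ (Fin n) |
              ∀ u ∈ Metric.sphere (0 : EuclideanSpace ℝ (Fin n)) 1,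
                inner ℝ x u ≤ (α * (sSup ((fun y : EuclideanSpace ℝ (Fin n) => inner ℝ y u) '' K)) ^ p
                    + β * (sSup ((fun y : EuclideanSpace ℝ (Fin n) => inner ℝ y u) '' C)) ^ p) ^ (1 / p)}).toReal ^ (p / (n : ℝ)))
      ∧ ((volume {x : EuclideanSpace ℝ (Fin n) |
              ∀ u ∈ Metric.sphere (0 : EuclideanSpace ℝ (Fin n)) 1,
                inner ℝ x u ≤ (α * (sSup ((fun y : EuclideanSpace ℝ (Fin n) => inner ℝ y u) '' K)) ^ p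
                    + β * (sSup ((fun y : EuclideanSpace ℝ (Fin n) => inner ℝ y u) '' C)) ^ p) ^ (1 / p)}).toReal ^ (p / (n : ℝ))
          = α * (volume K).toReal ^ (p / (n : ℝ)) + β * (volume C).toReal ^ (p / (n : ℝ))
        ↔ ∃ t : ℝ, 0 < t ∧ C = (fun x : EuclideanSpace ℝ (Fin n) => t • x) '' K)

/-- `LFN`: from the logarithmic inequality to Q1 (copy of `helper68.FIN`) -/
def Stmt_LFN : Prop := ∀ (n : ℕ), 1 ≤ n → ∀ K C : Set (E n), CBody K → CBody C → LogPair K C →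
  ∀ p : ℝ, 0 < p → p < 1 → Q1Pair p K C

/-! ## the factors -/

/-- `FC1`: dimension one -/
def Stmt_FC1 : Prop := ∀ A B : Set (E 1), CBody A → CBody B → LogPair A B

/-- `FC2`: dimension two, from `Pool.LBM` (`Stmt_LE`, `pos`) -/
def Stmt_FC2 : Prop := ∀ A B : Set (E 2), CBody A → CBody B → LogPair A B

/-- `FC3`: dimension three, symmetric, from `Pool.G1.Final.log Pool.G1.NB.PL_done` -/
def Stmt_FC3 : Prop := ∀ A B : Set (E 3), CBody A → CBody B → (∀ x ∈ A, -x ∈ A) →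
  (∀ x ∈ B, -x ∈ B) → LogPair A B

/-- `DBD`: the geometric mean of two centered bodies is a body -/
def Stmt_DBD : Prop := ∀ (d : ℕ), 1 ≤ d → ∀ A B : Set (E d), CBody A → CBody B →
  ∀ t : ℝ, 0 < t → t < 1 → Bd (DD t A B)

/-! ## volumes -/

/-- `GAU`: gauges of bodies -/
def Stmt_GAU : Prop := ∀ (d : ℕ) (A : Set (E d)), Bd A →
  (∀ s : ℝ, 0 ≤ s → ∀ x : E d, (∃ y ∈ A, x = s • y) ↔ gauge A x ≤ s) ∧
  (∀ x : E d, gauge A x = 0 ↔ x = 0) ∧ Continuous (gauge A)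

/-- `MP1`: the push forward of the volume by the logarithm of the gauge -/
def Stmt_MP1 : Prop := ∀ (d : ℕ), 1 ≤ d → ∀ A : Set (E d), Bd A →
  Measure.map (fun x : E d => Real.log (gauge A x)) volume = (volume A) • lam d

/-- `LPI`: product measure -/
def Stmt_LPI : Prop := ∀ (m : ℕ) (d : Fin m → ℕ) (c : Fin m → ℝ≥0∞), (∀ i, c i ≠ ⊤) →
  Measure.pi (fun i => c i • lam (d i)) = (∏ i, c i) • wm d

/-- `VLW`: lower bound for the volume of a sum -/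
def Stmt_VLW : Prop := ∀ (m : ℕ) (d : Fin m → ℕ), (∀ i, 1 ≤ d i) → ∀ A : ∀ i, Set (E (d i)),
  (∀ i, Bd (A i)) → ∀ W : Set (Fin m → ℝ), IsClosed W →
  (∏ i, volume (A i)) * wm d (LL W) ≤ volume (USum W A)

/-- `VUP`: upper bound for the volume of a sum -/
def Stmt_VUP : Prop := ∀ (m : ℕ) (d : Fin m → ℕ), (∀ i, 1 ≤ d i) → ∀ A : ∀ i, Set (E (d i)),
  (∀ i, Bd (A i)) → ∀ U : Set (Fin m → ℝ), Prof U →
  volume (USum U A) ≤ (∏ i, volume (A i)) * wm d (LL U)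

/-- `UVC`: the geometric mean of two profiles is compact -/
def Stmt_UVC : Prop := ∀ (m : ℕ) (U V : Set (Fin m → ℝ)), Prof U → Prof V →
  ∀ t : ℝ, 0 < t → t < 1 → IsCompact (UV t U V)

/-- `PLX`: Prekopa-Leindler for profiles, from `Pool.Agent.Work.MP_3892ce_static.Stmt_PLN` -/
def Stmt_PLX : Prop := ∀ (m : ℕ) (d : Fin m → ℕ) (U V : Set (Fin m → ℝ)), Prof U → Prof V →
  ∀ t : ℝ, 0 < t → t < 1 →
  (wm d (LL U)) ^ (1 - t) * (wm d (LL V)) ^ t ≤ wm d (LL (UV t U V))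

/-! ## the inclusion -/

/-- `HLD`: Hölder for two families -/
def Stmt_HLD : Prop := ∀ (m : ℕ) (a b : Fin m → ℝ), (∀ i, 0 ≤ a i) → (∀ i, 0 ≤ b i) →
  ∀ t : ℝ, 0 < t → t < 1 →
  ∑ i, a i ^ (1 - t) * b i ^ t ≤ (∑ i, a i) ^ (1 - t) * (∑ i, b i) ^ t

/-- `DFN`: every functional `x ↦ ⟨Φ x, u⟩` splits -/
def Stmt_DFN : Prop := ∀ (n m : ℕ) (d : Fin m → ℕ)
  (Φ : (∀ i, E (d i)) ≃ₗ[ℝ] E n) (u : E n), ∃ v : ∀ i, E (d i),
  ∀ x : ∀ i, E (d i), inner ℝ (Φ x) u = ∑ i, inner ℝ (x i) (v i)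

/-- `SUP`: sums of support values are support values of the sum -/
def Stmt_SUP : Prop := ∀ (n m : ℕ) (d : Fin m → ℕ) (Φ : (∀ i, E (d i)) ≃ₗ[ℝ] E n)
  (A : ∀ i, Set (E (d i))), (∀ i, CBody (A i)) → ∀ U : Set (Fin m → ℝ), Prof U →
  IsCompact (Φ '' USum U A) → ∀ (u : E n) (v : ∀ i, E (d i)),
  (∀ x : ∀ i, E (d i), inner ℝ (Φ x) u = ∑ i, inner ℝ (x i) (v i)) →
  ∀ s ∈ U, ∑ i, s i * supp (A i) (v i) ≤ supp (Φ '' USum U A) u

/-- `DIN`: the inequality of `DD` for all vectors, not only unit vectors -/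
def Stmt_DIN : Prop := ∀ (d : ℕ), 1 ≤ d → ∀ A B : Set (E d), CBody A → CBody B →
  ∀ t : ℝ, 0 < t → t < 1 → ∀ y ∈ DD t A B, ∀ v : E d,
  inner ℝ y v ≤ supp A v ^ (1 - t) * supp B v ^ t

/-- `INC`: the inclusion -/
def Stmt_INC : Prop := ∀ (n m : ℕ) (d : Fin m → ℕ), (∀ i, 1 ≤ d i) →
  ∀ (Φ : (∀ i, E (d i)) ≃ₗ[ℝ] E n) (A B : ∀ i, Set (E (d i))), (∀ i, CBody (A i)) →
  (∀ i, CBody (B i)) → ∀ U V : Set (Fin m → ℝ), Prof U → Prof V →
  IsCompact (Φ '' USum U A) → IsCompact (Φ '' USum V B) →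
  ∀ t : ℝ, 0 < t → t < 1 →
  Φ '' USum (UV t U V) (fun i => DD t (A i) (B i)) ⊆
    Wulff fun u => supp (Φ '' USum U A) u ^ (1 - t) * supp (Φ '' USum V B) u ^ t

/-- `LIN`: volumes of linear images -/
def Stmt_LIN : Prop := ∀ (n m : ℕ) (d : Fin m → ℕ) (Φ : (∀ i, E (d i)) ≃ₗ[ℝ] E n),
  ∃ c : ℝ≥0∞, c ≠ 0 ∧ c ≠ ⊤ ∧ ∀ S : Set (∀ i, E (d i)), volume (Φ '' S) = c * volume S

/-- `SYC`: symmetric sets are centered -/
def Stmt_SYC : Prop := ∀ (d : ℕ) (A : Set (E d)), (∀ x ∈ A, -x ∈ A) → (∫ x in A, x) = 0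

/-! ## assembly -/

/-- `LGN`: the logarithmic inequality for unconditional sums -/
def Stmt_LGN : Prop := ∀ (n m : ℕ) (d : Fin m → ℕ) (Φ : (∀ i, E (d i)) ≃ₗ[ℝ] E n)
  (A B : ∀ i, Set (E (d i))), (∀ i, Fac (d i) (A i) (B i)) →
  ∀ U V : Set (Fin m → ℝ), Prof U → Prof V →
  1 ≤ n → CBody (Φ '' USum U A) → CBody (Φ '' USum V B) →
  LogPair (Φ '' USum U A) (Φ '' USum V B)

end Pool.US
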