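import Pool.Agent.Work.MP_b5407d_us.Interface
import Pool.Agent.Work.MP_b5407d_lp_helper23.CEN
import Pool.Agent.Work.MP_b5407d_lp_helper68.EQL

set_option autoImplicit false

open MeasureTheory Set Filter Topology
open scoped ENNReal Pointwise

namespace Pool.US

open Pool.Agent.Work.LPBM (E supp Wulff CBody mp)

namespace LGN

theorem bd_of {d : ℕ} (hd : 1 ≤ d) {A : Set (E d)} (hA : CBody A) : Bd A :=
  ⟨hA.1, hA.2.1, (Pool.Agent.Work.LPBM.helper23.stmt_CEN d A hd hA).1⟩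

theorem cont0 {d : ℕ} (hd : 1 ≤ d) {A B : Set (E d)} (hA : CBody A) (hB : CBody B) {t : ℝ}
    (ht0 : 0 < t) (ht1 : t < 1) : Continuous (fun u => supp A u ^ (1 - t) * supp B u ^ t) := by
  have h1 := (Pool.Agent.Work.LPBM.helper23.stmt_CEN d A hd hA).2.2.1
  have h2 := (Pool.Agent.Work.LPBM.helper23.stmt_CEN d B hd hB).2.2.1
  exact (h1.rpow_const (fun _ => Or.inr (by linarith))).mul
    (h2.rpow_const (fun _ => Or.inr ht0.le))

theorem fin0 {d : ℕ} (hd : 1 ≤ d) {A B : Set (E d)} (hA : CBody A) (hB : CBody B) {t : ℝ}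
    (ht0 : 0 < t) (ht1 : t < 1) :
    volume (Wulff fun u => supp A u ^ (1 - t) * supp B u ^ t) ≠ ⊤ :=
  Pool.Agent.Work.LPBM.helper68.wulff_fin hd _ (cont0 hd hA hB ht0 ht1)

theorem ofLog {d : ℕ} (hd : 1 ≤ d) {A B : Set (E d)} (hA : CBody A) (hB : CBody B)
    (h : LogPair A B) {t : ℝ} (ht0 : 0 < t) (ht1 : t < 1) :
    volume A ^ (1 - t) * volume B ^ t ≤ volume (DD t A B) := by
  have h1 := h t ht0 ht1
  have hfA : volume A ≠ ⊤ := hA.2.1.measure_lt_top.ne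
  have hfB : volume B ≠ ⊤ := hB.2.1.measure_lt_top.ne
  have hl : volume A ^ (1 - t) * volume B ^ t ≠ ⊤ :=
    ENNReal.mul_ne_top (ENNReal.rpow_ne_top_of_nonneg (by linarith) hfA)
      (ENNReal.rpow_ne_top_of_nonneg ht0.le hfB)
  show volume A ^ (1 - t) * volume B ^ t ≤
    volume (Wulff fun u => supp A u ^ (1 - t) * supp B u ^ t)
  rw [← ENNReal.toReal_le_toReal hl (fin0 hd hA hB ht0 ht1), ENNReal.toReal_mul,
    ← ENNReal.toReal_rpow, ← ENNReal.toReal_rpow]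
  exact h1

theorem toLog {n : ℕ} (hn : 1 ≤ n) {K C : Set (E n)} (hK : CBody K) (hC : CBody C)
    (h : ∀ t : ℝ, 0 < t → t < 1 → volume K ^ (1 - t) * volume C ^ t ≤
      volume (Wulff fun u => supp K u ^ (1 - t) * supp C u ^ t)) : LogPair K C := by
  intro t ht0 ht1
  rw [ENNReal.toReal_rpow, ENNReal.toReal_rpow, ← ENNReal.toReal_mul]
  exact ENNReal.toReal_mono (fin0 hn hK hC ht0 ht1) (h t ht0 ht1)

end LGN

theorem p_LGN (hFC1 : Stmt_FC1) (hFC2 : Stmt_FC2) (hFC3 : Stmt_FC3) (hDBD : Stmt_DBD)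
    (hVLW : Stmt_VLW) (hVUP : Stmt_VUP) (hUVC : Stmt_UVC) (hPLX : Stmt_PLX) (hINC : Stmt_INC)
    (hLIN : Stmt_LIN) : Stmt_LGN := by
  intro n m d Φ A B hF U V hU hV hn hK hC
  refine LGN.toLog hn hK hC ?_
  intro t ht0 ht1
  obtain ⟨c, hc0, hct, hc⟩ := hLIN n m d Φ
  have hd : ∀ i, 1 ≤ d i := by
    intro i
    rcases (hF i).2.2 with h | h
    · exact h.1
    · omega
  have hA : ∀ i, CBody (A i) := fun i => (hF i).1
  have hB : ∀ i, CBody (B i) := fun i => (hF i).2.1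
  have hfac : ∀ (e : ℕ) (X Y : Set (E e)), Fac e X Y → LogPair X Y := by
    intro e X Y ⟨hX, hY, h⟩
    rcases h with ⟨h1, h2⟩ | ⟨h3, hs1, hs2⟩
    · interval_cases e
      · exact hFC1 X Y hX hY
      · exact hFC2 X Y hX hY
    · subst h3
      exact hFC3 X Y hX hY hs1 hs2
  have hAb : ∀ i, Bd (A i) := fun i => LGN.bd_of (hd i) (hA i)
  have hBb : ∀ i, Bd (B i) := fun i => LGN.bd_of (hd i) (hB i)
  have hDb : ∀ i, Bd (DD t (A i) (B i)) := fun i => hDBD (d i) (hd i) _ _ (hA i) (hB i) t ht0 ht1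
  have hinc := hINC n m d hd Φ A B hA hB U V hU hV hK.2.1 hC.2.1 t ht0 ht1
  have hWc : IsClosed (UV t U V) := (hUVC m U V hU hV t ht0 ht1).isClosed
  have h1 : volume (Φ '' USum U A) ≤ c * ((∏ i, volume (A i)) * wm d (LL U)) := by
    rw [hc]
    exact mul_le_mul_right (hVUP m d hd A hAb U hU) c
  have h2 : volume (Φ '' USum V B) ≤ c * ((∏ i, volume (B i)) * wm d (LL V)) := by
    rw [hc]
    exact mul_le_mul_right (hVUP m d hd B hBb V hV) c
  have h3 : c * ((∏ i, volume (DD t (A i) (B i))) * wm d (LL (UV t U V))) ≤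
      volume (Φ '' USum (UV t U V) (fun i => DD t (A i) (B i))) := by
    rw [hc]
    exact mul_le_mul_right (hVLW m d hd (fun i => DD t (A i) (B i)) hDb (UV t U V) hWc) c
  have h4 : (∏ i, volume (A i)) ^ (1 - t) * (∏ i, volume (B i)) ^ t ≤
      ∏ i, volume (DD t (A i) (B i)) := by
    rw [← ENNReal.prod_rpow_of_nonneg (by linarith), ← ENNReal.prod_rpow_of_nonneg ht0.le,
      ← Finset.prod_mul_distrib]
    exact Finset.prod_le_prod' fun i _ => LGN.ofLog (hd i) (hA i) (hB i) (hfac _ _ _ (hF i)) ht0 ht1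
  have h5 := hPLX m d U V hU hV t ht0 ht1
  have hs0 : (0 : ℝ) ≤ 1 - t := by linarith
  calc volume (Φ '' USum U A) ^ (1 - t) * volume (Φ '' USum V B) ^ t
      ≤ (c * ((∏ i, volume (A i)) * wm d (LL U))) ^ (1 - t) *
        (c * ((∏ i, volume (B i)) * wm d (LL V))) ^ t :=
        mul_le_mul' (ENNReal.rpow_le_rpow h1 hs0) (ENNReal.rpow_le_rpow h2 ht0.le)
    _ = (c ^ (1 - t) * c ^ t) * (((∏ i, volume (A i)) ^ (1 - t) * (∏ i, volume (B i)) ^ t) *
        ((wm d (LL U)) ^ (1 - t) * (wm d (LL V)) ^ t)) := by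
        rw [ENNReal.mul_rpow_of_nonneg _ _ hs0, ENNReal.mul_rpow_of_nonneg _ _ hs0,
          ENNReal.mul_rpow_of_nonneg _ _ ht0.le, ENNReal.mul_rpow_of_nonneg _ _ ht0.le]
        ring
    _ = c * (((∏ i, volume (A i)) ^ (1 - t) * (∏ i, volume (B i)) ^ t) *
        ((wm d (LL U)) ^ (1 - t) * (wm d (LL V)) ^ t)) := by
        rw [← ENNReal.rpow_add _ _ hc0 hct, sub_add_cancel, ENNReal.rpow_one]
    _ ≤ c * ((∏ i, volume (DD t (A i) (B i))) * wm d (LL (UV t U V))) := by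
        gcongr
    _ ≤ volume (Φ '' USum (UV t U V) (fun i => DD t (A i) (B i))) := h3
    _ ≤ volume (Wulff fun u => supp (Φ '' USum U A) u ^ (1 - t) *
        supp (Φ '' USum V B) u ^ t) := measure_mono hinc

end Pool.US
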