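import Pool.Agent.Work.MP_b5407d_us.LGN
import Pool.Agent.Work.MP_b5407d_lp_helper68.FIN

/-!
The logarithmic inequality for unconditional sums, for arbitrary factors which satisfy it, and the pairs `(A, A)`.
-/

set_option autoImplicit false

open MeasureTheory Set Filter Topology
open scoped ENNReal Pointwise

namespace Pool.US

open Pool.Agent.Work.LPBM (E supp Wulff CBody mp)

/-- the logarithmic inequality for sums, all factors with the logarithmic inequality -/
def Stmt_LGNG : Prop := ∀ (n m : ℕ) (d : Fin m → ℕ) (Φ : (∀ i, E (d i)) ≃ₗ[ℝ] E n)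
  (A B : ∀ i, Set (E (d i))), (∀ i, 1 ≤ d i) → (∀ i, CBody (A i)) → (∀ i, CBody (B i)) →
  (∀ i, LogPair (A i) (B i)) →
  ∀ U V : Set (Fin m → ℝ), Prof U → Prof V →
  1 ≤ n → CBody (Φ '' USum U A) → CBody (Φ '' USum V B) →
  LogPair (Φ '' USum U A) (Φ '' USum V B)

theorem log_self {d : ℕ} (hd : 1 ≤ d) {A : Set (E d)} (hA : CBody A) : LogPair A A := by
  intro t ht0 ht1
  obtain ⟨-, hpos, -, -, hle, -⟩ := Pool.Agent.Work.LPBM.helper23.stmt_CEN d A hd hA
  have h1 : (volume A).toReal ^ (1 - t) * (volume A).toReal ^ t = (volume A).toReal := by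
    rw [← Real.rpow_add (Pool.Agent.Work.LPBM.helper68.body_pos hA), sub_add_cancel,
      Real.rpow_one]
  rw [h1]
  refine ENNReal.toReal_mono (LGN.fin0 hd hA hA ht0 ht1) (measure_mono ?_)
  intro x hx u hu
  have hu0 : u ≠ 0 := by
    intro h
    rw [h] at hu
    simp at hu
  have h2 : supp A u ^ (1 - t) * supp A u ^ t = supp A u := by
    rw [← Real.rpow_add (hpos u hu0), sub_add_cancel, Real.rpow_one]
  show inner ℝ x u ≤ supp A u ^ (1 - t) * supp A u ^ t
  rw [h2]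
  exact hle u x hx

theorem p_LGNG (hDBD : Stmt_DBD)
    (hVLW : Stmt_VLW) (hVUP : Stmt_VUP) (hUVC : Stmt_UVC) (hPLX : Stmt_PLX) (hINC : Stmt_INC)
    (hLIN : Stmt_LIN) : Stmt_LGNG := by
  intro n m d Φ A B hd hA hB hL U V hU hV hn hK hC
  refine LGN.toLog hn hK hC ?_
  intro t ht0 ht1
  obtain ⟨c, hc0, hct, hc⟩ := hLIN n m d Φ
  have hAb : ∀ i, Bd (A i) := fun i => LGN.bd_of (hd i) (hA i)
  have hBb : ∀ i, Bd (B i) := fun i => LGN.bd_of (hd i) (hB i)
  have hDb : ∀ i, Bd (DD t (A i) (B i)) := fun i => hDBD (d i) (hd i) _ _ (hA i) (hB i) t ht0 ht1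
  have hinc := hINC n m d hd Φ A B hA hB U V hU hV hK.2.1 hC.2.1 t ht0 ht1
  have hWc : IsClosed (UV t U V) := (hUVC m U V hU hV t ht0 ht1).isClosed
  have h1 : volume (Φ '' USum U A) ≤ c * ((∏ i, volume (A i)) * wm d (LL U)) := by
    rw [hc]
    exact mul_le_mul_right (hVUP m d hd A hAb U hU) c
  have h2 : volume (Φ '' USum V B) ≤ c * ((∏ i, volume (B i)) * wm d (LL V)) := by
    rw [hc]
    exact mul_le_mul_right (hVUP m d hd B hBb V hV) c
  have h3 : c * ((∏ i, volume (DD t (A i) (B i))) * wm d (LL (UV t U V))) ≤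
      volume (Φ '' USum (UV t U V) (fun i => DD t (A i) (B i))) := by
    rw [hc]
    exact mul_le_mul_right (hVLW m d hd (fun i => DD t (A i) (B i)) hDb (UV t U V) hWc) c
  have h4 : (∏ i, volume (A i)) ^ (1 - t) * (∏ i, volume (B i)) ^ t ≤
      ∏ i, volume (DD t (A i) (B i)) := by
    rw [← ENNReal.prod_rpow_of_nonneg (by linarith), ← ENNReal.prod_rpow_of_nonneg ht0.le,
      ← Finset.prod_mul_distrib]
    exact Finset.prod_le_prod' fun i _ => LGN.ofLog (hd i) (hA i) (hB i) (hL i) ht0 ht1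
  have h5 := hPLX m d U V hU hV t ht0 ht1
  have hs0 : (0 : ℝ) ≤ 1 - t := by linarith
  calc volume (Φ '' USum U A) ^ (1 - t) * volume (Φ '' USum V B) ^ t
      ≤ (c * ((∏ i, volume (A i)) * wm d (LL U))) ^ (1 - t) *
        (c * ((∏ i, volume (B i)) * wm d (LL V))) ^ t :=
        mul_le_mul' (ENNReal.rpow_le_rpow h1 hs0) (ENNReal.rpow_le_rpow h2 ht0.le)
    _ = (c ^ (1 - t) * c ^ t) * (((∏ i, volume (A i)) ^ (1 - t) * (∏ i, volume (B i)) ^ t) *
        ((wm d (LL U)) ^ (1 - t) * (wm d (LL V)) ^ t)) := by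
        rw [ENNReal.mul_rpow_of_nonneg _ _ hs0, ENNReal.mul_rpow_of_nonneg _ _ hs0,
          ENNReal.mul_rpow_of_nonneg _ _ ht0.le, ENNReal.mul_rpow_of_nonneg _ _ ht0.le]
        ring
    _ = c * (((∏ i, volume (A i)) ^ (1 - t) * (∏ i, volume (B i)) ^ t) *
        ((wm d (LL U)) ^ (1 - t) * (wm d (LL V)) ^ t)) := by
        rw [← ENNReal.rpow_add _ _ hc0 hct, sub_add_cancel, ENNReal.rpow_one]
    _ ≤ c * ((∏ i, volume (DD t (A i) (B i))) * wm d (LL (UV t U V))) := by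
        gcongr
    _ ≤ volume (Φ '' USum (UV t U V) (fun i => DD t (A i) (B i))) := h3
    _ ≤ volume (Wulff fun u => supp (Φ '' USum U A) u ^ (1 - t) *
        supp (Φ '' USum V B) u ^ t) := measure_mono hinc

end Pool.US
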