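import Pool.Agent.Work.MP_b5407d_us.Interface

/-!
# UVC: the geometric mean of two profiles is compact
-/

set_option autoImplicit false

open MeasureTheory Set Filter Topology
open scoped ENNReal Pointwise

namespace Pool.US

theorem p_UVC : Stmt_UVC := by
  intro m U V hU hV t ht0 ht1
  have hc : Continuous fun z : (Fin m → ℝ) × (Fin m → ℝ) =>
      (fun i => z.1 i ^ (1 - t) * z.2 i ^ t : Fin m → ℝ) := by
    refine continuous_pi fun i => Continuous.mul ?_ ?_
    · exact Continuous.rpow_const ((continuous_apply i).comp continuous_fst)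
        (fun x => Or.inr (by linarith))
    · exact Continuous.rpow_const ((continuous_apply i).comp continuous_snd)
        (fun x => Or.inr ht0.le)
  have h := (hU.cpt.prod hV.cpt).image hc
  have he : UV t U V = (fun z : (Fin m → ℝ) × (Fin m → ℝ) =>
      (fun i => z.1 i ^ (1 - t) * z.2 i ^ t : Fin m → ℝ)) '' (U ×ˢ V) := by
    ext s
    constructor
    · rintro ⟨a, ha, b, hb, hs⟩
      exact ⟨(a, b), ⟨ha, hb⟩, funext fun i => (hs i).symm⟩
    · rintro ⟨⟨a, b⟩, ⟨ha, hb⟩, rfl⟩
      exact ⟨a, ha, b, hb, fun i => rfl⟩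
  rw [he]
  exact h

end Pool.US
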